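import Pool.Agent.TH332.DW.Grad

namespace Pool.TH332.DW

open Metric Set Filter Topology

/-- elementary inequality for the positive part of `|x| - c`, abstract form -/
theorem aux_up {a b y y' W W' : ℝ} (ha : a = max (|y| - W / 16) 0)
    (hb : b = max (|y'| - W' / 16) 0) :
    (b - a) ^ 2 + 2 * a * (|y'| - Real.sign y * y') ≤
      b ^ 2 - a ^ 2 - 2 * a * Real.sign y * (y' - y) + (a / 8) * (W' - W) := by
  have hb1 : |y'| - W' / 16 ≤ b := by rw [hb]; exact le_max_left _ _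
  have hs : Real.sign y * y = |y| := by
    rcases lt_trichotomy y 0 with h | h | h
    · rw [Real.sign_of_neg h, abs_of_neg h]; ring
    · simp [h]
    · rw [Real.sign_of_pos h, abs_of_pos h]; ring
  have ha0 : 0 ≤ a := by rw [ha]; exact le_max_right _ _
  rcases eq_or_lt_of_le ha0 with h0 | h0
  · rw [← h0]; ring_nf; nlinarith
  · have ha1 : a = |y| - W / 16 := by
      rw [ha] at h0 ⊢
      rcases le_total (|y| - W / 16) 0 with h | h
      · rw [max_eq_right h] at h0; exact absurd h0 (lt_irrefl _)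
      · rw [max_eq_left h]
    have key : 0 ≤ 2 * a * (b - (|y'| - W' / 16)) :=
      mul_nonneg (by positivity) (by linarith)
    have e : b ^ 2 - a ^ 2 - 2 * a * Real.sign y * (y' - y) + (a / 8) * (W' - W)
        - ((b - a) ^ 2 + 2 * a * (|y'| - Real.sign y * y'))
        = 2 * a * (b - |y'| + W' / 16) + 2 * a * (|y| - W / 16 - a)
          + 2 * a * (Real.sign y * y - |y|) := by ring
    rw [hs, ← ha1] at e
    have e2 : 2 * a * (b - |y'| + W' / 16) = 2 * a * (b - (|y'| - W' / 16)) := by ring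
    nlinarith [key, e, e2]

theorem sign_mul_le_abs (x x' : ℝ) : Real.sign x * x' ≤ |x'| := by
  rcases lt_trichotomy x 0 with h | h | h
  · rw [Real.sign_of_neg h]; have := neg_le_abs x'; linarith
  · simp [h]
  · rw [Real.sign_of_pos h]; have := le_abs_self x'; linarith

theorem aux_xp {a b x x' : ℝ} (ha : a = max (|x| - 1) 0) (hb : b = max (|x'| - 1) 0) :
    (b - a) ^ 2 ≤ b ^ 2 - a ^ 2 - 2 * a * Real.sign x * (x' - x) := by
  have h := aux_up (a := a) (b := b) (y := x) (y' := x') (W := 16) (W' := 16)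
    (by rw [ha]; norm_num) (by rw [hb]; norm_num)
  have ha0 : 0 ≤ a := by rw [ha]; exact le_max_right _ _
  have := sign_mul_le_abs x x'
  nlinarith

theorem qq_nonneg (ζ : ℂ × ℂ) : 0 ≤ qq ζ := by unfold qq; positivity

theorem up_nonneg (z : ℂ × ℂ) : 0 ≤ up z := le_max_right _ _

theorem xp_nonneg (z : ℂ × ℂ) : 0 ≤ xp z := le_max_right _ _

theorem up_le (z : ℂ × ℂ) : up z ≤ |z.1.im| := by
  unfold up
  apply max_le _ (abs_nonneg _)
  have : 0 ≤ ‖z.2‖ ^ 2 := by positivity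
  linarith

theorem normSq_expand (w w' : ℂ) :
    ‖w'‖ ^ 2 = ‖w‖ ^ 2 + 2 * ((starRingEnd ℂ) w * (w' - w)).re + ‖w' - w‖ ^ 2 := by
  rw [← Complex.normSq_eq_norm_sq, ← Complex.normSq_eq_norm_sq, ← Complex.normSq_eq_norm_sq]
  simp [Complex.normSq_apply]
  ring

theorem lin_re (ζ h : ℂ × ℂ) : (lin ζ h).re =
    2 * xp ζ * Real.sign ζ.1.re * h.1.re +
      (2 * up ζ * Real.sign ζ.1.im + 2 * expNegInvGlue (qq ζ) * ζ.1.im) * h.1.im +
      (2 - up ζ / 4 + 2 * expNegInvGlue (qq ζ)) * ((starRingEnd ℂ) ζ.2 * h.2).re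
      - 2 * h.2.re := by
  unfold lin c1 c2
  simp only [Complex.add_re, Complex.mul_re, Complex.sub_re, Complex.sub_im, Complex.mul_im,
    Complex.I_re, Complex.I_im, Complex.ofReal_re, Complex.ofReal_im, Complex.conj_re,
    Complex.conj_im, Complex.re_ofNat, Complex.im_ofNat]
  ring

/-- `rho` lies above its tangent plane, with a quantitative gain; `gg` enters through its
tangent line inequality. -/
theorem rho_lower (hgg : ∀ q q' : ℝ, 0 ≤ q → 0 ≤ q' →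
      gg q + expNegInvGlue q * (q' - q) ≤ gg q') (ζ z : ℂ × ℂ) (hζ : |ζ.1.im| ≤ 4) :
    rho ζ + (lin ζ (z - ζ)).re + (1 / 2) * ‖z.2 - ζ.2‖ ^ 2 + (up z - up ζ) ^ 2 +
      2 * up ζ * (|z.1.im| - Real.sign ζ.1.im * z.1.im) +
      expNegInvGlue (qq ζ) * ((z.1.im - ζ.1.im) ^ 2 + ‖z.2 - ζ.2‖ ^ 2) +
      (xp z - xp ζ) ^ 2 ≤ rho z := by
  have h1 := aux_up (a := up ζ) (b := up z) (y := ζ.1.im) (y' := z.1.im) (W := ‖ζ.2‖ ^ 2)
    (W' := ‖z.2‖ ^ 2) rfl rfl
  have h2 := aux_xp (a := xp ζ) (b := xp z) (x := ζ.1.re) (x' := z.1.re) rfl rfl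
  have h3 := hgg (qq ζ) (qq z) (qq_nonneg _) (qq_nonneg _)
  have h4 := normSq_expand ζ.2 z.2
  have h5 := lin_re ζ (z - ζ)
  have h6 : up ζ ≤ 4 := (up_le ζ).trans hζ
  have h7 := up_nonneg ζ
  set γ := expNegInvGlue (qq ζ) with hγ
  set D := ‖z.2 - ζ.2‖ ^ 2 with hD
  have hD0 : 0 ≤ D := by positivity
  have e1 : (z - ζ).1 = z.1 - ζ.1 := rfl
  have e2 : (z - ζ).2 = z.2 - ζ.2 := rfl
  rw [e1, e2] at h5
  simp only [Complex.sub_re, Complex.sub_im] at h5
  rw [h5]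
  unfold rho
  have e3 : gg (ζ.1.im ^ 2 + ‖ζ.2‖ ^ 2) = gg (qq ζ) := rfl
  have e4 : gg (z.1.im ^ 2 + ‖z.2‖ ^ 2) = gg (qq z) := rfl
  rw [e3, e4]
  set P := ((starRingEnd ℂ) ζ.2 * (z.2 - ζ.2)).re with hP
  have h8 : qq z - qq ζ = 2 * ζ.1.im * (z.1.im - ζ.1.im) + (z.1.im - ζ.1.im) ^ 2 + 2 * P + D := by
    unfold qq; rw [h4]; ring
  rw [h8] at h3
  have h9 : 0 ≤ (1 / 2 - up ζ / 8) * D := mul_nonneg (by linarith) hD0
  have h10 : ‖z.2‖ ^ 2 - ‖ζ.2‖ ^ 2 = 2 * P + D := by rw [h4]; ring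
  rw [h10] at h1
  nlinarith [h1, h2, h3, h9, h10]

end Pool.TH332.DW
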