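import Pool.Agent.TH332.DW.Est

namespace Pool.TH332.DW

open Metric Set Filter Topology

theorem abs_sign_le (x : ℝ) : |Real.sign x| ≤ 1 := by
  rcases Real.sign_apply_eq x with h | h | h <;> rw [h] <;> norm_num

theorem up_le_of {z : ℂ × ℂ} (hz : rho z ≤ 0) : up z ≤ 9 / 4 :=
  (up_le z).trans (bounds hz).2.2.1

theorem xp_le_of {z : ℂ × ℂ} (hz : rho z ≤ 0) : xp z ≤ 2 := by
  unfold xp
  have := (bounds hz).2.2.2.1
  apply max_le <;> linarith

theorem c1_le {z : ℂ × ℂ} (hz : rho z ≤ 0) : ‖c1 z‖ ≤ 13 := by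
  unfold c1
  have h1 := xp_le_of hz
  have h2 := xp_nonneg z
  have h3 := up_le_of hz
  have h4 := up_nonneg z
  have h5 := (bounds hz).2.2.1
  have h6 := eni_le_one (qq z)
  have h7 : 0 ≤ expNegInvGlue (qq z) := expNegInvGlue.nonneg _
  have s1 := abs_sign_le z.1.re
  have s2 := abs_sign_le z.1.im
  have k1 : |2 * xp z * Real.sign z.1.re| ≤ 4 := by
    rw [abs_mul, abs_of_nonneg (by positivity : 0 ≤ 2 * xp z)]
    calc 2 * xp z * |Real.sign z.1.re| ≤ 4 * 1 :=
          mul_le_mul (by linarith) s1 (abs_nonneg _) (by norm_num)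
      _ = 4 := by norm_num
  have k2 : |2 * up z * Real.sign z.1.im| ≤ 9 / 2 := by
    rw [abs_mul, abs_of_nonneg (by positivity : 0 ≤ 2 * up z)]
    calc 2 * up z * |Real.sign z.1.im| ≤ (9 / 2) * 1 :=
          mul_le_mul (by linarith) s2 (abs_nonneg _) (by norm_num)
      _ = 9 / 2 := by norm_num
  have k3 : |2 * expNegInvGlue (qq z) * z.1.im| ≤ 9 / 2 := by
    rw [abs_mul, abs_of_nonneg (by positivity : 0 ≤ 2 * expNegInvGlue (qq z))]
    calc 2 * expNegInvGlue (qq z) * |z.1.im| ≤ 2 * (9 / 4) :=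
          mul_le_mul (by linarith) h5 (abs_nonneg _) (by norm_num)
      _ = 9 / 2 := by norm_num
  calc _ ≤ ‖((2 * xp z * Real.sign z.1.re : ℝ) : ℂ)‖ +
      ‖Complex.I * ((2 * up z * Real.sign z.1.im +
        2 * expNegInvGlue (qq z) * z.1.im : ℝ) : ℂ)‖ := norm_sub_le _ _
    _ ≤ 4 + 9 := by
      rw [norm_mul, Complex.norm_I, one_mul, Complex.norm_real, Complex.norm_real,
        Real.norm_eq_abs, Real.norm_eq_abs]
      have := abs_add_le (2 * up z * Real.sign z.1.im) (2 * expNegInvGlue (qq z) * z.1.im)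
      linarith
    _ = 13 := by norm_num

theorem c2_le {z : ℂ × ℂ} (hz : rho z ≤ 0) : ‖c2 z‖ ≤ 10 := by
  unfold c2
  have h3 := up_le_of hz
  have h4 := up_nonneg z
  have h5 := (bounds hz).2.1
  have h6 := eni_le_one (qq z)
  have h7 : 0 ≤ expNegInvGlue (qq z) := expNegInvGlue.nonneg _
  calc _ ≤ ‖((2 - up z / 4 + 2 * expNegInvGlue (qq z) : ℝ) : ℂ) * (starRingEnd ℂ) z.2‖ +
      ‖(2 : ℂ)‖ := norm_sub_le _ _
    _ ≤ 4 * 2 + 2 := by
      rw [norm_mul, Complex.norm_real, Real.norm_eq_abs, Complex.norm_conj]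
      have k : |2 - up z / 4 + 2 * expNegInvGlue (qq z)| ≤ 4 := by
        rw [abs_le]; constructor <;> linarith
      have k2 := mul_le_mul k h5 (norm_nonneg _) (by norm_num)
      have k3 : ‖(2 : ℂ)‖ = 2 := by simp
      linarith
    _ = 10 := by norm_num

theorem lin_norm_le (ζ h : ℂ × ℂ) : ‖lin ζ h‖ ≤ (‖c1 ζ‖ + ‖c2 ζ‖) * ‖h‖ := by
  unfold lin
  calc _ ≤ ‖c1 ζ * h.1‖ + ‖c2 ζ * h.2‖ := norm_add_le _ _
    _ ≤ ‖c1 ζ‖ * ‖h‖ + ‖c2 ζ‖ * ‖h‖ := by
      rw [norm_mul, norm_mul]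
      have := norm_fst_le h
      have := norm_snd_le h
      gcongr
    _ = _ := by ring

theorem rho_ge (z : ℂ × ℂ) (hz : rho z ≤ 0) : -4 ≤ rho z := by
  have hb := bounds hz
  have g0 : 0 ≤ gg (z.1.im ^ 2 + ‖z.2‖ ^ 2) := gg_nonneg (by positivity)
  have u0 := sq_nonneg (up z)
  have x0 := sq_nonneg (xp z)
  have h2 : z.2.re ≤ ‖z.2‖ := Complex.re_le_norm _
  have h3 := hb.2.1
  have h4 : 0 ≤ ‖z.2‖ ^ 2 := by positivity
  unfold rho
  linarith

theorem compact_sub (c : ℝ) (hc : 0 < c) : IsCompact {z | rho z ≤ -c} ∧ {z | rho z ≤ -c} ⊆ Om := by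
  constructor
  · apply Metric.isCompact_of_isClosed_isBounded
    · exact isClosed_le continuous_rho continuous_const
    · rw [isBounded_iff_forall_norm_le]
      refine ⟨4, fun z hz => (bounds (z := z) ?_).2.2.2.2⟩
      have : rho z ≤ -c := hz
      linarith
  · intro z hz
    have : rho z ≤ -c := hz
    show rho z < 0
    linarith

theorem aux_low {a b : ℝ} (h : 1 / 20 ≤ a + b) : 1 / 800 ≤ a ^ 2 + b ^ 2 := by
  nlinarith [sq_nonneg (a - b)]

theorem aux_high {a b : ℝ} (ha : 0 ≤ a) (hb : 0 ≤ b) (h1 : a ≤ 13) (h2 : b ≤ 10) :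
    a ^ 2 + b ^ 2 ≤ 269 := by
  have h3 : a ^ 2 ≤ 13 ^ 2 := pow_le_pow_left₀ ha h1 2
  have h4 : b ^ 2 ≤ 10 ^ 2 := pow_le_pow_left₀ hb h2 2
  norm_num at h3 h4
  linarith

theorem aux_q {d N : ℝ} (h1 : d ≤ 1 / 4) (h2 : 1 / 800 ≤ N) : d ≤ 1 / 5000 * (1000000 * N) := by
  linarith

theorem aux_neg {x d A B : ℝ} (h1 : x ≤ -d - B + A) (h2 : A - B < d) : x < 0 := by linarith

theorem aux_diff {R c q : ℝ} (h : R ^ 2 = c ^ 2 + q) : q = (R - c) * (R + c) := by
  linear_combination -h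

theorem aux_rc {R c : ℝ} (hR : 0 ≤ R) (hc : 0 ≤ c) (h1 : R ≤ 1 / 60) (h2 : c ≤ 1 / 1000) :
    (R + c) ^ 2 ≤ 1 / 2500 := by
  have h3 : (R + c) ^ 2 ≤ (1 / 50) ^ 2 := pow_le_pow_left₀ (by linarith) (by linarith) 2
  norm_num at h3 ⊢
  exact h3

theorem aux_dn {d N : ℝ} (hd : 0 ≤ d) (h : N ≤ 269) : 1 / 269 * d * N ≤ d := by
  have := mul_le_mul_of_nonneg_left h hd
  linarith

theorem aux_fin {d X Y : ℝ} (hd : 0 ≤ d) (h1 : X ≤ 1 / 2500) (h2 : 1000000 * Y ≥ 1 / 269 * d) :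
    X * d ≤ 1000000 * Y := by
  have := mul_le_mul_of_nonneg_right h1 hd
  linarith

/-- The upper bound for the Kobayashi distance to the base point. -/
theorem depth_upper (hK : KobFacts Om) :
    ∃ C : ℝ, 0 ≤ C ∧ ∀ ζ ∈ Om, kob Om z00 ζ ≤ C - (1 / 2) * Real.log (- rho ζ) := by
  obtain ⟨C1, hC1, h1⟩ := kob_bddOn_compact isOpen_Om hK z00_mem
    (compact_sub (1 / 4) (by norm_num)).1 (compact_sub (1 / 4) (by norm_num)).2
  obtain ⟨C2, hC2, h2⟩ := kob_bddOn_compact isOpen_Om hK z00_mem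
    (compact_sub (1 / 3200000000) (by norm_num)).1 (compact_sub (1 / 3200000000) (by norm_num)).2
  have hl4 : 0 ≤ Real.log 4 := Real.log_nonneg (by norm_num)
  have hl6 : 0 ≤ Real.log 1000000 := Real.log_nonneg (by norm_num)
  refine ⟨C1 + C2 + (1 / 2) * Real.log 4 + (1 / 2) * Real.log 1000000, by positivity, ?_⟩
  intro ζ hζ
  have hζ' : rho ζ < 0 := hζ
  have hζ0 := hζ'.le
  have hb := bounds hζ0
  obtain ⟨δ, hδ⟩ : ∃ δ : ℝ, δ = - rho ζ := ⟨_, rfl⟩
  rw [← hδ]
  have hδ0 : 0 < δ := by rw [hδ]; linarith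
  have hδ4 : δ ≤ 4 := by have := rho_ge ζ hζ0; linarith
  rcases le_total (1 / 4) δ with hcase | hcase
  · have := h1 ζ (show rho ζ ≤ -(1 / 4) by linarith)
    have h3 : Real.log δ ≤ Real.log 4 := Real.log_le_log hδ0 hδ4
    linarith
  · -- the main case
    have hζ4 : |ζ.1.im| ≤ 4 := hb.2.2.1.trans (by norm_num)
    -- lower bound for the gradient
    have g1 := rho_lower' hζ4 z00
    have g2 := ext_nonneg ζ z00
    have g3 := rho_z00
    have g4 : (lin ζ (z00 - ζ)).re ≤ -(1 / 4) := by linarith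
    have g5 : 1 / 4 ≤ ‖lin ζ (z00 - ζ)‖ := by
      have := Complex.abs_re_le_norm (lin ζ (z00 - ζ))
      have h := neg_le_abs (lin ζ (z00 - ζ)).re
      linarith
    have g6 := lin_norm_le ζ (z00 - ζ)
    have g7 : ‖z00 - ζ‖ ≤ 5 := by
      have h := norm_sub_le z00 ζ
      have : ‖z00‖ ≤ 1 := by unfold z00; rw [Prod.norm_def]; simp
      linarith [hb.2.2.2.2]
    obtain ⟨n1, hn1⟩ : ∃ n1 : ℝ, n1 = ‖c1 ζ‖ := ⟨_, rfl⟩
    obtain ⟨n2, hn2⟩ : ∃ n2 : ℝ, n2 = ‖c2 ζ‖ := ⟨_, rfl⟩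
    rw [← hn1, ← hn2] at g6
    have n10 : 0 ≤ n1 := by rw [hn1]; exact norm_nonneg _
    have n20 : 0 ≤ n2 := by rw [hn2]; exact norm_nonneg _
    have g8 : 1 / 20 ≤ n1 + n2 := by
      have : (n1 + n2) * ‖z00 - ζ‖ ≤ (n1 + n2) * 5 := by gcongr
      linarith
    obtain ⟨N, hN⟩ : ∃ N : ℝ, N = n1 ^ 2 + n2 ^ 2 := ⟨_, rfl⟩
    have gN : 1 / 800 ≤ N := by rw [hN]; exact aux_low g8
    have gN2 : N ≤ 269 := by
      have h1 := c1_le hζ0
      have h2 := c2_le hζ0
      rw [← hn1] at h1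
      rw [← hn2] at h2
      rw [hN]
      exact aux_high n10 n20 h1 h2
    -- direction
    set e : ℂ × ℂ := ((starRingEnd ℂ) (c1 ζ), (starRingEnd ℂ) (c2 ζ)) with he
    have e1 : lin ζ e = ((N : ℝ) : ℂ) := by
      unfold lin
      rw [he, hN, hn1, hn2]
      simp only
      rw [Complex.mul_conj, Complex.mul_conj, Complex.normSq_eq_norm_sq, Complex.normSq_eq_norm_sq]
      push_cast; rfl
    have e2 : ‖e‖ ≤ 13 := by
      rw [he, Prod.norm_def]
      simp only [Complex.norm_conj]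
      exact max_le (c1_le hζ0) ((c2_le hζ0).trans (by norm_num))
    have e3 : ‖e‖ ^ 2 ≤ N := by
      rw [he, Prod.norm_def]
      simp only [Complex.norm_conj]
      rw [← hn1, ← hn2, hN]
      rcases le_total n1 n2 with h | h
      · rw [max_eq_right h]; exact le_add_of_nonneg_left (sq_nonneg n1)
      · rw [max_eq_left h]; exact le_add_of_nonneg_right (sq_nonneg n2)
    -- the disc
    obtain ⟨Λ, hΛ⟩ : ∃ Λ : ℝ, Λ = 1000000 := ⟨_, rfl⟩
    obtain ⟨c, hc⟩ : ∃ c : ℝ, c = 1 / (2 * Λ) := ⟨_, rfl⟩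
    have hΛ0 : 0 < Λ := by rw [hΛ]; norm_num
    have hc0 : 0 < c := by rw [hc, hΛ]; norm_num
    have hN0 : 0 < N := by linarith
    obtain ⟨q, hq⟩ : ∃ q : ℝ, q = δ / (Λ * N) := ⟨_, rfl⟩
    have hq0 : 0 < q := by rw [hq]; positivity
    have hqle : q ≤ 1 / 5000 := by
      rw [hq, div_le_iff₀ (by positivity), hΛ]
      exact aux_q hcase gN
    obtain ⟨R, hR⟩ : ∃ R : ℝ, R = Real.sqrt (c ^ 2 + q) := ⟨_, rfl⟩
    have hR2 : R ^ 2 = c ^ 2 + q := by rw [hR]; exact Real.sq_sqrt (by positivity)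
    have hR0 : 0 < R := by rw [hR]; exact Real.sqrt_pos.2 (by positivity)
    have hcR : c < R := by
      rw [hR]; apply Real.lt_sqrt_of_sq_lt; linarith
    have hRle : R ≤ 1 / 60 := by
      rw [hR]
      apply Real.sqrt_le_iff.2
      constructor
      · norm_num
      · rw [hc, hΛ]
        norm_num
        linarith
    have hcle : c ≤ 1 / 1000 := by rw [hc, hΛ]; norm_num
    have key : ∀ l : ℂ, ‖l - (c : ℂ)‖ < R → rho (ζ - l • e) ≤ -δ - N * l.re + Λ * N * ‖l‖ ^ 2 := by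
      intro l hl
      have hl1 : ‖l‖ ≤ 1 / 50 := by
        have : ‖l‖ ≤ ‖l - (c : ℂ)‖ + ‖(c : ℂ)‖ := by
          calc ‖l‖ = ‖(l - (c : ℂ)) + (c : ℂ)‖ := by rw [sub_add_cancel]
            _ ≤ _ := norm_add_le _ _
        rw [Complex.norm_real, Real.norm_eq_abs, abs_of_pos hc0] at this
        linarith
      have hz10 : ‖ζ - l • e‖ ≤ 10 := by
        have h := norm_sub_le ζ (l • e)
        rw [norm_smul] at h
        have : ‖l‖ * ‖e‖ ≤ (1 / 50) * 13 := mul_le_mul hl1 e2 (norm_nonneg _) (by norm_num)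
        linarith [hb.2.2.2.2]
      have hu := rho_upper (fun q q' hq hq' => gg_upper hq hq') ζ (ζ - l • e)
        (hb.2.2.2.2.trans (by norm_num)) hz10
      have hsub : ζ - l • e - ζ = (-l) • e := by rw [neg_smul]; abel
      rw [hsub, lin_smul, e1, norm_smul, norm_neg] at hu
      have hre : (-l * ((N : ℝ) : ℂ)).re = - N * l.re := by
        simp [Complex.mul_re]; ring
      rw [hre] at hu
      have h6 : 7000 * (‖l‖ * ‖e‖) ^ 2 ≤ Λ * N * ‖l‖ ^ 2 := by
        have h0 : 0 ≤ ‖l‖ ^ 2 := by positivity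
        have h1 : ‖l‖ ^ 2 * ‖e‖ ^ 2 ≤ ‖l‖ ^ 2 * N := mul_le_mul_of_nonneg_left e3 h0
        have h2 : 0 ≤ ‖l‖ ^ 2 * N := by positivity
        rw [mul_pow, hΛ]
        have h3 : 1000000 * N * ‖l‖ ^ 2 = 1000000 * (‖l‖ ^ 2 * N) := by ring
        rw [h3]
        linarith
      linarith
    have hmaps : MapsTo (fun l : ℂ => ζ - l • e) (ball (c : ℂ) R) Om := by
      intro l hl
      rw [mem_ball, dist_eq_norm] at hl
      have h3 := key l hl
      show rho (ζ - l • e) < 0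
      have h4 : ‖l - (c : ℂ)‖ ^ 2 < c ^ 2 + q := by
        rw [← hR2]; exact pow_lt_pow_left₀ hl (norm_nonneg _) (by norm_num)
      have h5 : ‖l - (c : ℂ)‖ ^ 2 = ‖l‖ ^ 2 - 2 * c * l.re + c ^ 2 := by
        rw [← Complex.normSq_eq_norm_sq, ← Complex.normSq_eq_norm_sq]
        simp [Complex.normSq_apply]; ring
      have h6 : ‖l‖ ^ 2 - 2 * c * l.re < q := by linarith
      have h7 : Λ * N * (‖l‖ ^ 2 - 2 * c * l.re) < Λ * N * q :=
        mul_lt_mul_of_pos_left h6 (by positivity)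
      have h8 : Λ * N * q = δ := by rw [hq]; field_simp
      have h9 : Λ * N * (2 * c * l.re) = N * l.re := by rw [hc]; field_simp
      rw [mul_sub, h9, h8] at h7
      exact aux_neg h3 h7
    have hdiff : DifferentiableOn ℂ (fun l : ℂ => ζ - l • e) (ball (c : ℂ) R) := by
      apply Differentiable.differentiableOn
      fun_prop
    have hdisc := hK.disc (fun l : ℂ => ζ - l • e) (c : ℂ) R hR0 hdiff hmaps (c : ℂ)
      (mem_ball_self hR0) 0 (by
        rw [mem_ball, dist_eq_norm, zero_sub, norm_neg, Complex.norm_real, Real.norm_eq_abs,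
          abs_of_pos hc0]; exact hcR)
    simp only [zero_smul, sub_zero, sub_self, zero_div, zero_sub] at hdisc
    have hp : pdist 0 (-(c : ℂ) / (R : ℂ)) = ath (c / R) := by
      unfold pdist ath
      have : ‖(0 - -(c : ℂ) / (R : ℂ)) / (1 - (starRingEnd ℂ) 0 * (-(c : ℂ) / (R : ℂ)))‖
          = c / R := by
        simp only [map_zero, zero_mul, sub_zero, div_one, zero_sub, norm_neg, norm_div,
          Complex.norm_real, Real.norm_eq_abs]
        rw [abs_of_pos hc0, abs_of_pos hR0]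
      rw [this]
    rw [hp] at hdisc
    -- the centre
    have hcen : rho (ζ - (c : ℂ) • e) ≤ -(1 / 3200000000) := by
      have h3 := key (c : ℂ) (by simpa using hR0)
      rw [Complex.ofReal_re, Complex.norm_real, Real.norm_eq_abs, abs_of_pos hc0] at h3
      have h4 : Λ * N * c ^ 2 = N * c / 2 := by rw [hc]; field_simp
      rw [h4] at h3
      have h5 : N * c / 2 ≥ 1 / 3200000000 := by
        rw [hc, hΛ]; norm_num; linarith
      linarith
    have hcenΩ : ζ - (c : ℂ) • e ∈ Om := (compact_sub _ (by norm_num)).2 hcen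
    have h4 := h2 _ hcen
    have h5 := hK.triangle z00 z00_mem _ hcenΩ ζ hζ
    -- the estimate of ath
    have h6 : ath (c / R) ≤ (1 / 2) * Real.log 1000000 - (1 / 2) * Real.log δ := by
      unfold ath
      have hRc : 0 < R - c := by linarith
      have e4 : (1 + c / R) / (1 - c / R) = (R + c) ^ 2 / q := by
        have hRne : R ≠ 0 := hR0.ne'
        have h1 : (1 + c / R) / (1 - c / R) = (R + c) / (R - c) := by
          rw [div_eq_div_iff (by
            have : c / R < 1 := by rw [div_lt_one hR0]; exact hcR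
            linarith) hRc.ne']
          field_simp
        rw [h1, div_eq_div_iff hRc.ne' hq0.ne']
        have : q = (R - c) * (R + c) := aux_diff hR2
        rw [this]; ring
      rw [e4]
      have h7 : (R + c) ^ 2 / q ≤ 1000000 / δ := by
        rw [div_le_div_iff₀ hq0 hδ0, hq]
        have h8 : (R + c) ^ 2 ≤ 1 / 2500 := aux_rc hR0.le hc0.le hRle hcle
        have h9 : 1000000 * (δ / (Λ * N)) ≥ (1 / 269) * δ := by
          rw [hΛ, ge_iff_le]
          have : 1000000 * (δ / (1000000 * N)) = δ / N := by field_simp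
          rw [this, le_div_iff₀ hN0]
          exact aux_dn hδ0.le gN2
        exact aux_fin hδ0.le h8 h9
      have h10 : Real.log ((R + c) ^ 2 / q) ≤ Real.log (1000000 / δ) :=
        Real.log_le_log (by positivity) h7
      rw [Real.log_div (by norm_num) hδ0.ne'] at h10
      linarith
    linarith

end Pool.TH332.DW
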