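import Pool.Agent.TH332.DW.Defs

/-! The (complexified) gradient of the defining function. -/

namespace Pool.TH332.DW

/-- `q(ζ) = (Im ζ₁)^2 + |ζ₂|^2`. -/
noncomputable def qq (ζ : ℂ × ℂ) : ℝ := ζ.1.im ^ 2 + ‖ζ.2‖ ^ 2

/-- Coefficient of `z₁` in the complexified gradient of `rho` at `ζ`. -/
noncomputable def c1 (ζ : ℂ × ℂ) : ℂ :=
  ((2 * xp ζ * Real.sign ζ.1.re : ℝ) : ℂ) -
    Complex.I * ((2 * up ζ * Real.sign ζ.1.im + 2 * expNegInvGlue (qq ζ) * ζ.1.im : ℝ) : ℂ)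

/-- Coefficient of `z₂` in the complexified gradient of `rho` at `ζ`. -/
noncomputable def c2 (ζ : ℂ × ℂ) : ℂ :=
  ((2 - up ζ / 4 + 2 * expNegInvGlue (qq ζ) : ℝ) : ℂ) * (starRingEnd ℂ) ζ.2 - 2

/-- The complex linear form whose real part is the differential of `rho` at `ζ`. -/
noncomputable def lin (ζ h : ℂ × ℂ) : ℂ := c1 ζ * h.1 + c2 ζ * h.2

/-- The affine function with `Re (AA ζ) > 0` on `Om` and `AA ζ ζ = - rho ζ`. -/
noncomputable def AA (ζ z : ℂ × ℂ) : ℂ := ((- rho ζ : ℝ) : ℂ) - lin ζ (z - ζ)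

end Pool.TH332.DW
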