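import Pool.Agent.TH332.DW.Defs

/-! The facts about the Kobayashi distance which are used in the sequel, bundled. -/

namespace Pool.TH332.DW

open Metric Set Filter Topology

variable {E : Type*} [NormedAddCommGroup E] [NormedSpace ℂ E]

/-- Facts about `kob Ω` for a convex open set `Ω` (all proved in the file `Kob`). -/
structure KobFacts (Ω : Set E) : Prop where
  nonneg : ∀ z w, 0 ≤ kob Ω z w
  self : ∀ z ∈ Ω, kob Ω z z = 0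
  comm : ∀ z w, kob Ω z w = kob Ω w z
  triangle : ∀ z ∈ Ω, ∀ v ∈ Ω, ∀ w ∈ Ω, kob Ω z w ≤ kob Ω z v + kob Ω v w
  map_le : ∀ F : E → E, DifferentiableOn ℂ F Ω → MapsTo F Ω Ω → ∀ z ∈ Ω, ∀ w ∈ Ω,
    kob Ω (F z) (F w) ≤ kob Ω z w
  half : ∀ A : E → ℂ, DifferentiableOn ℂ A Ω → (∀ z ∈ Ω, 0 < (A z).re) → ∀ z ∈ Ω, ∀ w ∈ Ω,
    ‖A w - A z‖ ≤ (Real.exp (2 * kob Ω z w) - 1) * (A z).re
  split : ∀ z ∈ Ω, ∀ w ∈ Ω, ∀ s t : ℝ, 0 < s → 0 < t → kob Ω z w < s + t →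
    ∃ a ∈ Ω, kob Ω z a < s ∧ kob Ω a w < t
  disc : ∀ (φ : ℂ → E) (c : ℂ) (R : ℝ), 0 < R → DifferentiableOn ℂ φ (ball c R) →
    MapsTo φ (ball c R) Ω → ∀ α ∈ ball c R, ∀ β ∈ ball c R,
      kob Ω (φ α) (φ β) ≤ pdist ((α - c) / R) ((β - c) / R)
  near : ∀ (z w : E) (r : ℝ), 0 < r → ball z r ⊆ Ω → ‖w - z‖ < r → kob Ω z w ≤ ath (‖w - z‖ / r)

end Pool.TH332.DW
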