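import Pool.Agent.TH332.DW.OmBasic
import Pool.Agent.TH332.DW.Facts

namespace Pool.TH332.DW

open Metric Set Filter Topology

theorem AA_self (ζ : ℂ × ℂ) : AA ζ ζ = ((- rho ζ : ℝ) : ℂ) := by
  unfold AA lin; simp

theorem AA_re {ζ : ℂ × ℂ} (hζ : |ζ.1.im| ≤ 4) (z : ℂ × ℂ) :
    ext ζ z - rho z ≤ (AA ζ z).re := by
  have := rho_lower' hζ z
  unfold AA
  rw [Complex.sub_re, Complex.ofReal_re]
  linarith

theorem AA_re_pos {ζ : ℂ × ℂ} (hζ : |ζ.1.im| ≤ 4) {z : ℂ × ℂ} (hz : z ∈ Om) :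
    0 < (AA ζ z).re := by
  have h1 := AA_re hζ z
  have h2 := ext_nonneg ζ z
  have h3 : rho z < 0 := hz
  linarith

theorem differentiable_AA (ζ : ℂ × ℂ) : Differentiable ℂ (AA ζ) := by
  unfold AA lin
  fun_prop

/-- `|A(b) - A(a)| ≤ (e^{2k} - 1) Re A(a)` for the functionals `AA ζ`. -/
theorem AA_half (hK : KobFacts Om) {ζ : ℂ × ℂ} (hζ : |ζ.1.im| ≤ 4) {a b : ℂ × ℂ} (ha : a ∈ Om)
    (hb : b ∈ Om) :
    ‖AA ζ b - AA ζ a‖ ≤ (Real.exp (2 * kob Om a b) - 1) * (AA ζ a).re :=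
  hK.half (AA ζ) (differentiable_AA ζ).differentiableOn (fun _ hz => AA_re_pos hζ hz) a ha b hb

theorem AA_le_exp (hK : KobFacts Om) {ζ : ℂ × ℂ} (hζ : |ζ.1.im| ≤ 4) {a b : ℂ × ℂ} (ha : a ∈ Om)
    (hb : b ∈ Om) :
    ‖AA ζ b‖ ≤ Real.exp (2 * kob Om a b) * ‖AA ζ a‖ := by
  have h1 := AA_half hK hζ ha hb
  have h2 : ‖AA ζ b‖ ≤ ‖AA ζ b - AA ζ a‖ + ‖AA ζ a‖ := by
    calc ‖AA ζ b‖ = ‖(AA ζ b - AA ζ a) + AA ζ a‖ := by rw [sub_add_cancel]
      _ ≤ _ := norm_add_le _ _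
  have h3 : (AA ζ a).re ≤ ‖AA ζ a‖ := Complex.re_le_norm _
  have h4 : 0 ≤ Real.exp (2 * kob Om a b) - 1 := by
    have := hK.nonneg a b
    have : 1 ≤ Real.exp (2 * kob Om a b) := Real.one_le_exp (by linarith)
    linarith
  nlinarith [mul_le_mul_of_nonneg_left h3 h4]

/-- Lower bound for the depth in terms of the distance to the base point. -/
theorem depth_lower (hK : KobFacts Om) {z : ℂ × ℂ} (hz : z ∈ Om) :
    1 / 2 ≤ Real.exp (2 * kob Om z00 z) * (- rho z) := by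
  have hb := (bounds (le_of_lt hz)).2.2.1
  have hz4 : |z.1.im| ≤ 4 := hb.trans (by norm_num)
  have h1 := AA_le_exp hK hz4 hz z00_mem
  rw [AA_self, hK.comm z z00, Complex.norm_real, Real.norm_eq_abs] at h1
  have hz' : rho z < 0 := hz
  rw [abs_of_pos (by linarith)] at h1
  have h2 := AA_re hz4 z00
  have h3 := ext_nonneg z z00
  have h4 := rho_z00
  have h5 : (AA z z00).re ≤ ‖AA z z00‖ := Complex.re_le_norm _
  linarith

/-- Properness of the Kobayashi distance of `Om`. -/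
theorem proper_Om (hK : KobFacts Om) (R : ℝ) :
    ∃ K : Set (ℂ × ℂ), IsCompact K ∧ K ⊆ Om ∧ ∀ z ∈ Om, kob Om z00 z ≤ R → z ∈ K := by
  refine ⟨{z | rho z ≤ -(1 / 2) * Real.exp (-(2 * R))}, ?_, ?_, ?_⟩
  · apply Metric.isCompact_of_isClosed_isBounded
    · exact isClosed_le continuous_rho continuous_const
    · rw [isBounded_iff_forall_norm_le]
      refine ⟨4, fun z hz => (bounds (z := z) ?_).2.2.2.2⟩
      have : rho z ≤ -(1 / 2) * Real.exp (-(2 * R)) := hz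
      have := Real.exp_pos (-(2 * R))
      linarith
  · intro z hz
    have h : rho z ≤ -(1 / 2) * Real.exp (-(2 * R)) := hz
    have := Real.exp_pos (-(2 * R))
    show rho z < 0
    linarith
  · intro z hz hk
    have h1 := depth_lower hK hz
    have h2 : Real.exp (2 * kob Om z00 z) ≤ Real.exp (2 * R) := Real.exp_le_exp.2 (by linarith)
    have hz' : rho z < 0 := hz
    show rho z ≤ -(1 / 2) * Real.exp (-(2 * R))
    have h3 : 1 / 2 ≤ Real.exp (2 * R) * (- rho z) :=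
      h1.trans (mul_le_mul_of_nonneg_right h2 (by linarith))
    have h4 : Real.exp (-(2 * R)) * Real.exp (2 * R) = 1 := by
      rw [← Real.exp_add]; simp
    have h5 := mul_le_mul_of_nonneg_left h3 (Real.exp_pos (-(2 * R))).le
    have h6 : Real.exp (-(2 * R)) * (Real.exp (2 * R) * (- rho z)) = - rho z := by
      rw [← mul_assoc, h4, one_mul]
    linarith

/-- Continuity of the Kobayashi distance from the base point. -/
theorem kob_bddOn_compact {Ω : Set (ℂ × ℂ)} (ho : IsOpen Ω) (hK : KobFacts Ω) {z₀ : ℂ × ℂ}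
    (hz₀ : z₀ ∈ Ω) {K : Set (ℂ × ℂ)} (hKc : IsCompact K) (hKΩ : K ⊆ Ω) :
    ∃ C : ℝ, 0 ≤ C ∧ ∀ z ∈ K, kob Ω z₀ z ≤ C := by
  -- local boundedness
  have hloc : ∀ p ∈ K, ∃ t ∈ 𝓝[K] p, ∃ C : ℝ, ∀ z ∈ t, z ∈ Ω → kob Ω z₀ z ≤ C := by
    intro p hp
    obtain ⟨r, hr, hb⟩ := Metric.isOpen_iff.1 ho p (hKΩ hp)
    refine ⟨ball p (r / 2), mem_nhdsWithin_of_mem_nhds (ball_mem_nhds p (by linarith)),
      kob Ω z₀ p + ath (1 / 2), ?_⟩
    intro z hz hzΩ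
    have hz' : ‖z - p‖ < r / 2 := by rwa [← dist_eq_norm]
    have h1 := hK.near p z r hr hb (by linarith)
    have h2 : ath (‖z - p‖ / r) ≤ ath (1 / 2) := by
      have h3 : ‖z - p‖ / r ≤ 1 / 2 := by rw [div_le_iff₀ hr]; linarith
      have h4 : 0 ≤ ‖z - p‖ / r := by positivity
      unfold ath
      apply mul_le_mul_of_nonneg_left _ (by norm_num)
      apply Real.log_le_log
      · apply div_pos <;> linarith
      · apply div_le_div₀ <;> linarith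
    have h5 := hK.triangle z₀ hz₀ p (hKΩ hp) z hzΩ
    linarith
  obtain ⟨t, C, h⟩ : ∃ t : Set (ℂ × ℂ), ∃ C : ℝ, K ⊆ t ∧ ∀ z ∈ t, z ∈ Ω → kob Ω z₀ z ≤ C := by
    refine hKc.induction_on (p := fun s => ∃ t : Set (ℂ × ℂ), ∃ C : ℝ, s ⊆ t ∧
      ∀ z ∈ t, z ∈ Ω → kob Ω z₀ z ≤ C) ⟨∅, 0, subset_rfl, by simp⟩ ?_ ?_ ?_
    · rintro s t hst ⟨u, C, h1, h2⟩
      exact ⟨u, C, hst.trans h1, h2⟩
    · rintro s t ⟨u, C, h1, h2⟩ ⟨u', C', h1', h2'⟩
      refine ⟨u ∪ u', max C C', union_subset_union h1 h1', ?_⟩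
      rintro z (hz | hz) hzΩ
      · exact (h2 z hz hzΩ).trans (le_max_left _ _)
      · exact (h2' z hz hzΩ).trans (le_max_right _ _)
    · intro p hp
      obtain ⟨t, ht, C, h⟩ := hloc p hp
      exact ⟨t, ht, t, C, subset_rfl, h⟩
  exact ⟨max C 0, le_max_right _ _, fun z hz => (h.2 z (h.1 hz) (hKΩ hz)).trans (le_max_left _ _)⟩

end Pool.TH332.DW
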