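import Pool.Agent.TH332.DW.Kob
import Pool.Agent.TH332.DW.Est
import Pool.Agent.TH113.J1624
import Pool.Agent.TH113.J1627

/-! Fixed point free self-maps of `Om`: all orbits tend to infinity in the Kobayashi distance. -/

set_option autoImplicit false

namespace Pool.TH332.DW

open Metric Set Filter Topology

theorem ath_tendsto_zero : Tendsto ath (𝓝 0) (𝓝 0) := by
  have hath : ContinuousAt ath 0 := by
    unfold ath
    refine continuousAt_const.mul (ContinuousAt.log ?_ (by norm_num))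
    exact (continuousAt_const.add continuousAt_id).div (continuousAt_const.sub continuousAt_id)
      (by norm_num)
  have h3 : ath 0 = 0 := by unfold ath; norm_num
  have := hath.tendsto
  rwa [h3] at this

/-- Kobayashi balls are totally bounded. -/
theorem totBdd (hK : KobFacts Om) (R δ : ℝ) (hδ : 0 < δ) :
    ∃ N : Finset (ℂ × ℂ), ↑N ⊆ Om ∧ ∀ z ∈ Om, kob Om z00 z ≤ R → ∃ n ∈ N, kob Om z n < δ := by
  classical
  obtain ⟨K, hKc, hKO, hKR⟩ := proper_Om hK R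
  have hloc : ∀ p ∈ K, {z | z ∈ Om → kob Om z p < δ} ∈ 𝓝 p := by
    intro p hp
    obtain ⟨r, hr, hb⟩ := Metric.isOpen_iff.1 isOpen_Om p (hKO hp)
    have hn : Tendsto (fun z : ℂ × ℂ => ‖z - p‖ / r) (𝓝 p) (𝓝 0) := by
      have : Tendsto (fun z : ℂ × ℂ => ‖z - p‖ / r) (𝓝 p) (𝓝 (‖p - p‖ / r)) :=
        (Continuous.tendsto (by fun_prop) p)
      simpa using this
    have h1 := (ath_tendsto_zero.comp hn).eventually_lt_const hδ
    have h2 : ∀ᶠ z in 𝓝 p, ‖z - p‖ < r := by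
      filter_upwards [ball_mem_nhds p hr] with z hz
      simpa [dist_eq_norm] using hz
    filter_upwards [h1, h2] with z hz1 hz2 _
    rw [hK.comm]
    exact (hK.near p z r hr hb hz2).trans_lt hz1
  obtain ⟨t, htK, hcov⟩ := hKc.elim_nhds_subcover _ hloc
  refine ⟨t, fun x hx => hKO (htK x hx), fun z hz hzR => ?_⟩
  have := hcov (hKR z hz hzR)
  simp only [mem_iUnion, mem_ofPred_eq, exists_prop] at this
  obtain ⟨n, hn, hn2⟩ := this
  exact ⟨n, hn, hn2 hz⟩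

theorem orbit_tendsto (hK : KobFacts Om)
    (hone : ∀ K : Set (ℂ × ℂ), IsCompact K → K ⊆ Om → ∃ r : ℝ, r < 1 ∧ ∀ z ∈ K, ∀ w ∈ K,
      B2c.OneDisc Om z w r)
    (hhom : ∀ c ∈ Om, ∀ ε : ℝ, 0 < ε → ε < 1 → ∃ θ : ℝ, 0 < θ ∧ θ < 1 ∧ ∀ z ∈ Om, ∀ w ∈ Om,
      kob Om (((1 - ε : ℝ) : ℂ) • z + ((ε : ℝ) : ℂ) • c)
        (((1 - ε : ℝ) : ℂ) • w + ((ε : ℝ) : ℂ) • c) ≤ θ * kob Om z w)
    (F : ℂ × ℂ → ℂ × ℂ) (hF : DifferentiableOn ℂ F Om) (hm : MapsTo F Om Om)
    (hfix : ∀ z ∈ Om, F z ≠ z) :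
    Tendsto (fun n : ℕ => kob Om z00 (F^[n] z00)) atTop atTop := by
  by_contra hnot
  rw [Filter.tendsto_atTop] at hnot
  push Not at hnot
  obtain ⟨R, hR⟩ := hnot
  have hfreq : ∃ᶠ n : ℕ in atTop, kob Om z00 (F^[n] z00) ≤ R := by
    refine hR.mono fun n hn => ?_
    exact hn.le
  obtain ⟨R', hR'⟩ := calka Om (kob Om) hK.nonneg hK.comm
    (fun x hx y hy z hz => hK.triangle x hx y hy z hz) z00_mem
    (fun R δ hδ => totBdd hK R δ hδ) F hm (fun x hx y hy => hK.map_le F hF hm x hx y hy) R hfreq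
  obtain ⟨z, hz, hz2⟩ := B2c.exists_fixed_of_bounded_orbit convex_Om isOpen_Om isBounded_Om hK
    z00_mem (proper_Om hK) hone hhom hF hm hR'
  exact hfix z hz hz2

end Pool.TH332.DW
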