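import Pool.Agent.TH113.J1627

/-! Any two points of a compact subset of a convex open set lie on one disc, with a uniform
parameter. -/

set_option autoImplicit false

namespace Pool.TH332.DW

open Metric Set Filter Topology

variable {E : Type*} [NormedAddCommGroup E] [NormedSpace ℂ E] {Ω : Set E}

/-- `log ((1+ζ)/(1-ζ))` -/
noncomputable def LL (ζ : ℂ) : ℂ := Complex.log ((1 + ζ) / (1 - ζ))

theorem LL_den {ζ : ℂ} (h : ‖ζ‖ < 1) : (1 - ζ) ≠ 0 := by
  intro h0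
  have : ζ = 1 := by linear_combination -h0
  rw [this] at h
  simp at h

theorem LL_re_pos {ζ : ℂ} (h : ‖ζ‖ < 1) : 0 < ((1 + ζ) / (1 - ζ)).re := by
  have hd := LL_den h
  have hn : 0 < Complex.normSq (1 - ζ) := Complex.normSq_pos.2 hd
  have h1 : Complex.normSq ζ < 1 := by
    rw [Complex.normSq_eq_norm_sq]
    nlinarith [norm_nonneg ζ]
  rw [Complex.div_re, ← add_div]
  apply div_pos _ hn
  rw [Complex.normSq_apply] at h1
  simp only [Complex.add_re, Complex.sub_re, Complex.one_re, Complex.add_im, Complex.sub_im,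
    Complex.one_im]
  nlinarith

theorem LL_diff : DifferentiableOn ℂ LL (ball 0 1) := by
  unfold LL
  refine DifferentiableOn.clog ?_ ?_
  · refine DifferentiableOn.div (by fun_prop) (by fun_prop) ?_
    intro ζ hζ
    exact LL_den (by simpa using hζ)
  · intro ζ hζ
    exact Or.inl (LL_re_pos (by simpa using hζ))

theorem LL_im {ζ : ℂ} (h : ‖ζ‖ < 1) : |(LL ζ).im| ≤ 2 := by
  unfold LL
  rw [Complex.log_im]
  have h1 : |((1 + ζ) / (1 - ζ)).arg| ≤ Real.pi / 2 :=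
    Complex.abs_arg_le_pi_div_two_iff.2 (LL_re_pos h).le
  have := Real.pi_le_four
  linarith

theorem LL_re {ζ : ℂ} {s : ℝ} (hs0 : 0 ≤ s) (hs : s < 1) (h : ‖ζ‖ ≤ s) :
    |(LL ζ).re| ≤ Real.log ((1 + s) / (1 - s)) := by
  unfold LL
  rw [Complex.log_re, norm_div]
  have h1 : ‖1 + ζ‖ ≤ 1 + s := by
    calc ‖1 + ζ‖ ≤ ‖(1 : ℂ)‖ + ‖ζ‖ := norm_add_le _ _
      _ ≤ 1 + s := by rw [norm_one]; linarith
  have h2 : 1 - s ≤ ‖1 + ζ‖ := by
    have := norm_sub_norm_le (1 : ℂ) (-ζ)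
    rw [norm_one, norm_neg, sub_neg_eq_add] at this
    linarith
  have h3 : ‖1 - ζ‖ ≤ 1 + s := by
    calc ‖1 - ζ‖ ≤ ‖(1 : ℂ)‖ + ‖ζ‖ := norm_sub_le _ _
      _ ≤ 1 + s := by rw [norm_one]; linarith
  have h4 : 1 - s ≤ ‖1 - ζ‖ := by
    have := norm_sub_norm_le (1 : ℂ) ζ
    rw [norm_one] at this
    linarith
  have hp1 : 0 < ‖1 + ζ‖ := by linarith
  have hp2 : 0 < ‖1 - ζ‖ := by linarith
  have hs1 : 0 < 1 - s := by linarith
  have hs2 : 0 < 1 + s := by linarith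
  rw [abs_le]
  constructor
  · rw [← Real.log_inv, inv_div]
    apply Real.log_le_log (by positivity)
    rw [div_le_div_iff₀ hs2 hp2]
    nlinarith
  · apply Real.log_le_log (by positivity)
    rw [div_le_div_iff₀ hp2 hs1]
    nlinarith

/-- a disc in a thin neighbourhood of `[0,1]` through `0` and `1`. -/
theorem exists_thin_disc (δ : ℝ) (hδ : 0 < δ) : ∃ r : ℝ, 0 ≤ r ∧ r < 1 ∧ ∃ f : ℂ → ℂ,
    DifferentiableOn ℂ f (ball 0 1) ∧ f 0 = 0 ∧ f (r : ℂ) = 1 ∧
      ∀ ζ ∈ ball (0 : ℂ) 1, ∃ t : ℝ, 0 ≤ t ∧ t ≤ 1 ∧ ‖f ζ - t‖ < δ := by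
  obtain ⟨N, hN⟩ : ∃ N : ℝ, N = 2 / δ + 1 := ⟨_, rfl⟩
  have hN0 : 0 < N := by rw [hN]; positivity
  have hNδ : 3 / (2 * N) < δ := by
    rw [div_lt_iff₀ (by positivity), hN]
    have : δ * (2 * (2 / δ + 1)) = 4 + 2 * δ := by field_simp; ring
    rw [this]; linarith
  obtain ⟨s, hs⟩ : ∃ s : ℝ, s = (Real.exp (N + 1) - 1) / (Real.exp (N + 1) + 1) := ⟨_, rfl⟩
  obtain ⟨u, hu⟩ : ∃ u : ℝ, u = (Real.exp N - 1) / (Real.exp N + 1) := ⟨_, rfl⟩
  have he1 : 1 < Real.exp N := Real.one_lt_exp_iff.2 hN0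
  have he2 : Real.exp N < Real.exp (N + 1) := Real.exp_lt_exp.2 (by linarith)
  have hs0 : 0 < s := by rw [hs]; apply div_pos <;> linarith
  have hs1 : s < 1 := by rw [hs, div_lt_one (by linarith)]; linarith
  have hu0 : 0 < u := by rw [hu]; apply div_pos <;> linarith
  have hus : u < s := by
    rw [hu, hs, div_lt_div_iff₀ (by linarith) (by linarith)]
    nlinarith
  have hse : (1 + s) / (1 - s) = Real.exp (N + 1) := by
    rw [hs]
    have : Real.exp (N + 1) + 1 ≠ 0 := by linarith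
    field_simp
    ring
  have hue : (1 + u) / (1 - u) = Real.exp N := by
    rw [hu]
    have : Real.exp N + 1 ≠ 0 := by linarith
    field_simp
    ring
  obtain ⟨r1, hr1⟩ : ∃ r1 : ℝ, r1 = u / s := ⟨_, rfl⟩
  have hr10 : 0 < r1 := by rw [hr1]; positivity
  have hr11 : r1 < 1 := by rw [hr1, div_lt_one hs0]; exact hus
  have hsr : s * r1 = u := by rw [hr1]; field_simp
  -- Moebius map
  have hmob : ∀ ζ ∈ ball (0 : ℂ) 1, ‖(ζ - r1) / (1 - r1 * ζ)‖ < 1 := by
    intro ζ hζ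
    have hζ1 : ‖ζ‖ < 1 := by simpa using hζ
    have hd : 1 - (r1 : ℂ) * ζ ≠ 0 := by
      apply LL_den
      rw [norm_mul, Complex.norm_real, Real.norm_of_nonneg hr10.le]
      nlinarith [norm_nonneg ζ]
    rw [norm_div, div_lt_one (norm_pos_iff.2 hd)]
    have hsq : Complex.normSq (ζ - r1) < Complex.normSq (1 - r1 * ζ) := by
      have h1 : Complex.normSq ζ < 1 := by
        rw [Complex.normSq_eq_norm_sq]
        nlinarith [norm_nonneg ζ]
      rw [Complex.normSq_apply] at h1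
      rw [Complex.normSq_apply, Complex.normSq_apply]
      simp only [Complex.sub_re, Complex.sub_im, Complex.ofReal_re, Complex.ofReal_im,
        Complex.mul_re, Complex.mul_im, Complex.one_re, Complex.one_im]
      have h2 : 0 < 1 - r1 ^ 2 := by nlinarith
      nlinarith [mul_pos h2 (sub_pos.2 h1)]
    rw [Complex.normSq_eq_norm_sq, Complex.normSq_eq_norm_sq] at hsq
    exact lt_of_pow_lt_pow_left₀ 2 (norm_nonneg _) hsq
  have hmobd : DifferentiableOn ℂ (fun ζ : ℂ => (ζ - r1) / (1 - r1 * ζ)) (ball 0 1) := by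
    refine DifferentiableOn.div (by fun_prop) (by fun_prop) ?_
    intro ζ hζ
    have hζ1 : ‖ζ‖ < 1 := by simpa using hζ
    apply LL_den
    rw [norm_mul, Complex.norm_real, Real.norm_of_nonneg hr10.le]
    nlinarith [norm_nonneg ζ]
  have hsin : ∀ ζ ∈ ball (0 : ℂ) 1, ‖(s : ℂ) * ((ζ - r1) / (1 - r1 * ζ))‖ ≤ s := by
    intro ζ hζ
    rw [norm_mul, Complex.norm_real, Real.norm_of_nonneg hs0.le]
    nlinarith [hmob ζ hζ, norm_nonneg ((ζ - r1) / (1 - r1 * ζ))]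
  have hr0 : (0 : ℝ) ≤ 2 * r1 / (1 + r1 ^ 2) := by positivity
  have hr1' : 2 * r1 / (1 + r1 ^ 2) < 1 := by
    rw [div_lt_one (by positivity)]
    nlinarith [sq_pos_of_pos (sub_pos.2 hr11)]
  have hNc : (N : ℂ) ≠ 0 := by exact_mod_cast hN0.ne'
  refine ⟨2 * r1 / (1 + r1 ^ 2), hr0, hr1',
    fun ζ => 1 / 2 + LL (s * ((ζ - r1) / (1 - r1 * ζ))) / (2 * N), ?_, ?_, ?_, ?_⟩
  · have h1 : DifferentiableOn ℂ (fun ζ : ℂ => LL (s * ((ζ - r1) / (1 - r1 * ζ)))) (ball 0 1) := by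
      refine LL_diff.comp (hmobd.const_mul _) ?_
      intro ζ hζ
      rw [mem_ball_zero_iff]
      exact (hsin ζ hζ).trans_lt hs1
    exact (differentiableOn_const _).add (h1.div_const _)
  · have h1 : (s : ℂ) * ((0 - r1) / (1 - r1 * 0)) = ((-u : ℝ) : ℂ) := by
      rw [← hsr]; push_cast; ring
    have h2 : LL ((-u : ℝ) : ℂ) = ((-N : ℝ) : ℂ) := by
      unfold LL
      have h3 : (1 + ((-u : ℝ) : ℂ)) / (1 - ((-u : ℝ) : ℂ)) = ((Real.exp (-N) : ℝ) : ℂ) := by
        rw [Real.exp_neg, ← hue, inv_div]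
        push_cast
        ring_nf
      rw [h3, ← Complex.ofReal_log (Real.exp_pos _).le, Real.log_exp]
    simp only [h1, h2]
    push_cast
    field_simp
    ring
  · have h0 : (1 + r1 ^ 2 : ℂ) ≠ 0 := by
      have : (1 + r1 ^ 2 : ℝ) ≠ 0 := by positivity
      exact_mod_cast this
    have h00 : (1 - r1 ^ 2 : ℂ) ≠ 0 := by
      have : (1 - r1 ^ 2 : ℝ) ≠ 0 := by nlinarith
      exact_mod_cast this
    have h1 : (s : ℂ) * ((((2 * r1 / (1 + r1 ^ 2) : ℝ) : ℂ) - r1) /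
        (1 - r1 * ((2 * r1 / (1 + r1 ^ 2) : ℝ) : ℂ))) = ((u : ℝ) : ℂ) := by
      rw [← hsr]
      push_cast
      have e1 : (2 * (r1 : ℂ) / (1 + r1 ^ 2) - r1) = r1 * (1 - r1 ^ 2) / (1 + r1 ^ 2) := by
        field_simp
        ring
      have e2 : (1 - (r1 : ℂ) * (2 * r1 / (1 + r1 ^ 2))) = (1 - r1 ^ 2) / (1 + r1 ^ 2) := by
        field_simp
        ring
      rw [e1, e2]
      field_simp
    have h2 : LL ((u : ℝ) : ℂ) = ((N : ℝ) : ℂ) := by
      unfold LL
      have h3 : (1 + ((u : ℝ) : ℂ)) / (1 - ((u : ℝ) : ℂ)) = ((Real.exp N : ℝ) : ℂ) := by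
        rw [← hue]
        push_cast
        rfl
      rw [h3, ← Complex.ofReal_log (Real.exp_pos _).le, Real.log_exp]
    simp only [h1, h2]
    field_simp
    ring
  · intro ζ hζ
    have hz := hsin ζ hζ
    have hre := LL_re hs0.le hs1 hz
    rw [hse, Real.log_exp] at hre
    have him := LL_im (hz.trans_lt hs1)
    obtain ⟨X, hX⟩ : ∃ X : ℂ, X = LL (s * ((ζ - r1) / (1 - r1 * ζ))) := ⟨_, rfl⟩
    rw [← hX] at hre him
    simp only [← hX]
    rw [abs_le] at hre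
    have e1 : (1 / 2 + X / (2 * N) : ℂ).re = 1 / 2 + X.re / (2 * N) := by
      have : X / (2 * N : ℂ) = X / ((2 * N : ℝ) : ℂ) := by push_cast; rfl
      rw [this, Complex.add_re, Complex.div_ofReal_re]
      norm_num
    have e2 : (1 / 2 + X / (2 * N) : ℂ).im = X.im / (2 * N) := by
      have : X / (2 * N : ℂ) = X / ((2 * N : ℝ) : ℂ) := by push_cast; rfl
      rw [this, Complex.add_im, Complex.div_ofReal_im]
      norm_num
    have hlo : -(1 / 2) - 1 / (2 * N) ≤ X.re / (2 * N) := by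
      rw [le_div_iff₀ (by positivity)]
      have : (-(1 / 2) - 1 / (2 * N)) * (2 * N) = -(N + 1) := by field_simp; ring
      rw [this]; exact hre.1
    have hhi : X.re / (2 * N) ≤ 1 / 2 + 1 / (2 * N) := by
      rw [div_le_iff₀ (by positivity)]
      have : (1 / 2 + 1 / (2 * N)) * (2 * N) = N + 1 := by field_simp
      rw [this]; exact hre.2
    have him2 : |X.im / (2 * N)| ≤ 2 / (2 * N) := by
      rw [abs_div, abs_of_pos (show 0 < 2 * N by positivity)]
      exact div_le_div_of_nonneg_right him (by positivity)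
    refine ⟨max 0 (min 1 (1 / 2 + X.re / (2 * N))), le_max_left _ _, max_le zero_le_one
      (min_le_left _ _), ?_⟩
    refine lt_of_le_of_lt (Complex.norm_le_abs_re_add_abs_im _) ?_
    rw [Complex.sub_re, Complex.sub_im, e1, e2, Complex.ofReal_re, Complex.ofReal_im, sub_zero]
    have h5 : |1 / 2 + X.re / (2 * N) - max 0 (min 1 (1 / 2 + X.re / (2 * N)))| ≤ 1 / (2 * N) := by
      have hpos : 0 ≤ 1 / (2 * N) := by positivity
      rw [abs_le]
      rcases le_total 1 (1 / 2 + X.re / (2 * N)) with h | h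
      · rw [min_eq_left h, max_eq_right zero_le_one]
        constructor <;> linarith
      · rw [min_eq_right h]
        rcases le_total 0 (1 / 2 + X.re / (2 * N)) with h' | h'
        · rw [max_eq_right h']
          constructor <;> linarith
        · rw [max_eq_left h']
          constructor <;> linarith
    have h6 : 1 / (2 * N) + 2 / (2 * N) = 3 / (2 * N) := by ring
    linarith

theorem oneDisc_of_compact (hc : Convex ℝ Ω) (ho : IsOpen Ω) {K : Set E} (hK : IsCompact K)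
    (hKΩ : K ⊆ Ω) : ∃ r : ℝ, r < 1 ∧ ∀ z ∈ K, ∀ w ∈ K, B2c.OneDisc Ω z w r := by
  obtain ⟨K', hK'⟩ : ∃ K' : Set E, K' = (fun p : (E × E) × ℝ => p.1.1 + p.2 • (p.1.2 - p.1.1)) ''
    ((K ×ˢ K) ×ˢ (Icc (0 : ℝ) 1)) := ⟨_, rfl⟩
  have hK'c : IsCompact K' := by
    rw [hK']
    exact ((hK.prod hK).prod isCompact_Icc).image (by fun_prop)
  have hK'Ω : K' ⊆ Ω := by
    rw [hK']
    rintro _ ⟨⟨⟨z, w⟩, t⟩, ⟨⟨hz, hw⟩, ht⟩, rfl⟩
    have h := hc (hKΩ hz) (hKΩ hw) (show 0 ≤ 1 - t by linarith [ht.2]) ht.1 (by ring)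
    have e : z + t • (w - z) = (1 - t) • z + t • w := by
      rw [smul_sub, sub_smul, one_smul]; abel
    show z + t • (w - z) ∈ Ω
    rw [e]; exact h
  obtain ⟨η, hη, hthick⟩ := hK'c.exists_thickening_subset_open ho hK'Ω
  obtain ⟨M, hM⟩ := hK.isBounded.exists_norm_le
  have hδ : 0 < η / (2 * |M| + 1) := by positivity
  obtain ⟨r, hr0, hr1, f, hf, hf0, hfr, hft⟩ := exists_thin_disc _ hδ
  refine ⟨r, hr1, fun z hz w hw => ⟨hr0, hr1, fun ζ => z + f ζ • (w - z), ?_, ?_, ?_, ?_⟩⟩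
  · exact (differentiableOn_const _).add (hf.smul_const _)
  · intro ζ hζ
    obtain ⟨t, ht0, ht1, ht⟩ := hft ζ hζ
    apply hthick
    rw [mem_thickening_iff]
    refine ⟨z + t • (w - z), ?_, ?_⟩
    · rw [hK']
      exact ⟨((z, w), t), ⟨⟨hz, hw⟩, ht0, ht1⟩, rfl⟩
    · have e : z + f ζ • (w - z) - (z + t • (w - z)) = (f ζ - t) • (w - z) := by
        rw [sub_smul, Complex.coe_smul]; abel
      rw [dist_eq_norm, e, norm_smul]
      have h1 : ‖w - z‖ ≤ 2 * |M| := by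
        calc ‖w - z‖ ≤ ‖w‖ + ‖z‖ := norm_sub_le _ _
          _ ≤ M + M := add_le_add (hM w hw) (hM z hz)
          _ ≤ 2 * |M| := by linarith [le_abs_self M]
      calc ‖f ζ - t‖ * ‖w - z‖ ≤ ‖f ζ - t‖ * (2 * |M|) :=
            mul_le_mul_of_nonneg_left h1 (norm_nonneg _)
        _ ≤ η / (2 * |M| + 1) * (2 * |M|) := mul_le_mul_of_nonneg_right ht.le (by positivity)
        _ < η := by
          rw [div_mul_eq_mul_div, div_lt_iff₀ (by positivity)]
          nlinarith [abs_nonneg M]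
  · simp only [hf0, zero_smul, add_zero]
  · simp only [hfr, one_smul]
    abel

end Pool.TH332.DW
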