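import Pool.Agent.TH332.DW.Upp
import Pool.Agent.TH332.DW.GG

namespace Pool.TH332.DW

open Metric Set Filter Topology

theorem continuous_eni : Continuous expNegInvGlue := (expNegInvGlue.contDiff (n := 0)).continuous

theorem continuous_gg : Continuous gg :=
  intervalIntegral.continuous_primitive (fun a b => continuous_eni.intervalIntegrable a b) 0

theorem continuous_up : Continuous up := by
  unfold up; fun_prop

theorem continuous_xp : Continuous xp := by
  unfold xp; fun_prop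

theorem continuous_rho : Continuous rho := by
  unfold rho
  have h1 := continuous_up
  have h2 := continuous_xp
  have h3 : Continuous fun z : ℂ × ℂ => gg (z.1.im ^ 2 + ‖z.2‖ ^ 2) :=
    continuous_gg.comp (by fun_prop)
  fun_prop

theorem isOpen_Om : IsOpen Om := isOpen_lt continuous_rho continuous_const

/-- bounds on the closed domain -/
theorem bounds {z : ℂ × ℂ} (hz : rho z ≤ 0) :
    ‖z.2‖ ^ 2 ≤ 2 * z.2.re ∧ ‖z.2‖ ≤ 2 ∧ |z.1.im| ≤ 9 / 4 ∧ |z.1.re| ≤ 3 ∧ ‖z‖ ≤ 4 := by
  unfold rho at hz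
  have g0 : 0 ≤ gg (z.1.im ^ 2 + ‖z.2‖ ^ 2) := gg_nonneg (by positivity)
  have u0 := sq_nonneg (up z)
  have x0 := sq_nonneg (xp z)
  have b1 : ‖z.2‖ ^ 2 ≤ 2 * z.2.re := by linarith
  have b2 : z.2.re ≤ ‖z.2‖ := Complex.re_le_norm _
  have n0 := norm_nonneg z.2
  have b3 : ‖z.2‖ ≤ 2 := by nlinarith
  have w0 : 0 ≤ ‖z.2‖ ^ 2 := by positivity
  have b4 : up z ^ 2 ≤ 4 := by nlinarith
  have b5 : xp z ^ 2 ≤ 4 := by nlinarith
  have b6 : up z ≤ 2 := by nlinarith [up_nonneg z]
  have b7 : xp z ≤ 2 := by nlinarith [xp_nonneg z]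
  have b8 : |z.1.im| - ‖z.2‖ ^ 2 / 16 ≤ up z := le_max_left _ _
  have b9 : |z.1.re| - 1 ≤ xp z := le_max_left _ _
  have b10 : |z.1.im| ≤ 9 / 4 := by nlinarith
  have b11 : |z.1.re| ≤ 3 := by linarith
  refine ⟨b1, b3, b10, b11, ?_⟩
  have h1 : ‖z.1‖ ≤ 4 := by
    have : ‖z.1‖ ^ 2 ≤ 16 := by
      rw [← Complex.normSq_eq_norm_sq, Complex.normSq_apply]
      have e1 : z.1.re * z.1.re = |z.1.re| ^ 2 := by rw [sq_abs]; ring
      have e2 : z.1.im * z.1.im = |z.1.im| ^ 2 := by rw [sq_abs]; ring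
      rw [e1, e2]
      have := abs_nonneg z.1.re
      have := abs_nonneg z.1.im
      nlinarith
    nlinarith [norm_nonneg z.1]
  rw [Prod.norm_def]
  exact max_le h1 (by linarith)

/-- Nonnegative remainder in the lower bound. -/
noncomputable def ext (ζ z : ℂ × ℂ) : ℝ :=
  (1 / 2) * ‖z.2 - ζ.2‖ ^ 2 + (up z - up ζ) ^ 2 +
      2 * up ζ * (|z.1.im| - Real.sign ζ.1.im * z.1.im) +
      expNegInvGlue (qq ζ) * ((z.1.im - ζ.1.im) ^ 2 + ‖z.2 - ζ.2‖ ^ 2) +
      (xp z - xp ζ) ^ 2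

theorem ext_nonneg (ζ z : ℂ × ℂ) : 0 ≤ ext ζ z := by
  unfold ext
  have h1 := sign_mul_le_abs ζ.1.im z.1.im
  have h2 := up_nonneg ζ
  have h3 : 0 ≤ expNegInvGlue (qq ζ) := expNegInvGlue.nonneg _
  have h4 : 0 ≤ 2 * up ζ * (|z.1.im| - Real.sign ζ.1.im * z.1.im) :=
    mul_nonneg (by positivity) (by linarith)
  positivity

theorem rho_lower' {ζ : ℂ × ℂ} (hζ : |ζ.1.im| ≤ 4) (z : ℂ × ℂ) :
    rho ζ + (lin ζ (z - ζ)).re + ext ζ z ≤ rho z := by
  have := rho_lower (fun q q' hq hq' => gg_lower hq hq') ζ z hζ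
  unfold ext; linarith

theorem lin_add (ζ h k : ℂ × ℂ) : lin ζ (h + k) = lin ζ h + lin ζ k := by
  unfold lin; simp; ring

theorem lin_smul (ζ h : ℂ × ℂ) (c : ℂ) : lin ζ (c • h) = c * lin ζ h := by
  unfold lin; simp; ring

theorem convex_Om : Convex ℝ Om := by
  intro z hz z' hz' a b ha hb hab
  have bz := bounds (le_of_lt hz)
  have bz' := bounds (le_of_lt hz')
  set m := a • z + b • z' with hm
  have him : m.1.im = a * z.1.im + b * z'.1.im := by simp [hm]
  have h4 : |m.1.im| ≤ 4 := by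
    rw [him]
    calc |a * z.1.im + b * z'.1.im| ≤ |a * z.1.im| + |b * z'.1.im| := abs_add_le _ _
      _ = a * |z.1.im| + b * |z'.1.im| := by
        rw [abs_mul, abs_mul, abs_of_nonneg ha, abs_of_nonneg hb]
      _ ≤ a * (9 / 4) + b * (9 / 4) := by
        have := bz.2.2.1; have := bz'.2.2.1
        gcongr
      _ ≤ 4 := by nlinarith
  have h1 := rho_lower' h4 z
  have h2 := rho_lower' h4 z'
  have e1 := ext_nonneg m z
  have e2 := ext_nonneg m z'
  have hs : a * (lin m (z - m)).re + b * (lin m (z' - m)).re = 0 := by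
    have : lin m ((a : ℂ) • (z - m) + (b : ℂ) • (z' - m)) = 0 := by
      have hz0 : (a : ℂ) • (z - m) + (b : ℂ) • (z' - m) = 0 := by
        have hab' : (a : ℂ) + (b : ℂ) = 1 := by exact_mod_cast hab
        have : (a : ℂ) • (z - m) + (b : ℂ) • (z' - m) = ((a : ℂ) • z + (b : ℂ) • z')
            - ((a : ℂ) + (b : ℂ)) • m := by
          simp only [smul_sub, add_smul]; abel
        rw [this, hab', one_smul, hm]
        simp [Complex.coe_smul]
      rw [hz0]; unfold lin; simp
    rw [lin_add, lin_smul, lin_smul] at this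
    have := congrArg Complex.re this
    simpa using this
  have hz1 : rho z < 0 := hz
  have hz2 : rho z' < 0 := hz'
  show rho m < 0
  have key : rho m ≤ a * rho z + b * rho z' := by
    have t1 := mul_le_mul_of_nonneg_left h1 ha
    have t2 := mul_le_mul_of_nonneg_left h2 hb
    have t3 : 0 ≤ a * ext m z := mul_nonneg ha e1
    have t4 : 0 ≤ b * ext m z' := mul_nonneg hb e2
    have t5 : rho m = a * rho m + b * rho m := by rw [← add_mul, hab, one_mul]
    nlinarith
  rcases eq_or_lt_of_le ha with h | h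
  · rw [← h] at hab key; have : b = 1 := by linarith
    rw [this] at key; linarith
  · nlinarith

/-- the base point -/
noncomputable def z00 : ℂ × ℂ := (0, 1)

theorem rho_z00 : rho z00 ≤ -(1 / 2) := by
  unfold rho z00 up xp
  have h1 : gg 1 ≤ 1 * expNegInvGlue 1 := gg_le zero_le_one
  have h2 : expNegInvGlue 1 ≤ 1 / 2 := by
    unfold expNegInvGlue
    rw [if_neg (by norm_num), inv_one]
    rw [Real.exp_neg, show (1 : ℝ) / 2 = 2⁻¹ by norm_num]
    apply inv_anti₀ (by norm_num)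
    have := Real.add_one_le_exp 1
    linarith
  norm_num
  linarith

theorem z00_mem : z00 ∈ Om := by
  have := rho_z00
  show rho z00 < 0
  linarith

theorem isBounded_Om : Bornology.IsBounded Om := by
  rw [isBounded_iff_forall_norm_le]
  exact ⟨4, fun z hz => (bounds (le_of_lt hz)).2.2.2.2⟩

theorem rho_frontier {z : ℂ × ℂ} (hz : z ∈ frontier Om) : rho z = 0 := by
  rw [frontier, isOpen_Om.interior_eq] at hz
  obtain ⟨h1, h2⟩ := hz
  have h3 : z ∈ {z | rho z ≤ 0} :=
    closure_minimal (fun z hz => le_of_lt hz) (isClosed_le continuous_rho continuous_const) h1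
  have h4 : ¬ rho z < 0 := h2
  exact le_antisymm h3 (not_lt.1 h4)

end Pool.TH332.DW
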