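import Pool.Agent.TH606.DWC
import Pool.Agent.TH332.DW.OmBasic

/-! An explicit horosphere of `Om` whose closure contains two boundary points. -/

set_option autoImplicit false

namespace Pool.TH332.DW

open Metric Set Filter Topology

theorem two_points_Om (hK : KobFacts Om) :
    ∃ z₀ ∈ Om, ∃ u : ℕ → ℂ × ℂ, (∀ n, u n ∈ Om) ∧ ∃ p ∈ frontier Om, Tendsto u atTop (𝓝 p) ∧
      (horosphere Om z₀ u 1).Nonempty ∧
      ∃ q ∈ closure (horosphere Om z₀ u 1) ∩ frontier Om,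
      ∃ q' ∈ closure (horosphere Om z₀ u 1) ∩ frontier Om, q ≠ q' := by
  have hfr : ∀ x : ℝ, |x| ≤ 1 → (((x : ℂ), (0 : ℂ)) : ℂ × ℂ) ∈ frontier Om := by
    intro x hx
    rw [isOpen_Om.frontier_eq]
    refine ⟨H606.close_of fun r hr hr1 => H606.real_mem hx hr (by linarith), H606.not_mem⟩
  have hp : |(1 / 1000 : ℝ)| ≤ 1 := by norm_num
  refine ⟨(0, 1 / 2), H606.z0_mem, H606.uu, H606.uu_mem, _, hfr (1 / 1000) hp,
    H606.uu_tendsto, ⟨_, H606.horo_p hK (r := 1 / 100) (by norm_num) (by norm_num)⟩,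
    ((((1 / 1000 : ℝ) : ℂ), (0 : ℂ)) : ℂ × ℂ),
    ⟨H606.close_of fun r hr hr1 => H606.horo_p hK hr hr1, hfr _ hp⟩,
    (((0 : ℂ), (0 : ℂ)) : ℂ × ℂ),
    ⟨H606.close_of fun r hr hr1 => H606.horo_0 isOpen_Om hK hr hr1, ?_⟩, ?_⟩
  · have := hfr 0 (by simp)
    simpa using this
  · intro h
    have h3 : ((1 / 1000 : ℝ) : ℂ) = 0 := congrArg Prod.fst h
    norm_num at h3

end Pool.TH332.DW
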