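import Pool.Agent.TH332.DW.Steps

namespace Pool.TH332.DW

open Metric Set Filter Topology

/-- Cutting a path in `M` pieces of length `< h`. -/
theorem exists_nodes {Ω : Set (ℂ × ℂ)} (hK : KobFacts Ω) {ζ : ℂ × ℂ} (hζ : ζ ∈ Ω) {h : ℝ}
    (hh : 0 < h) (M : ℕ) : ∀ a ∈ Ω, kob Ω a ζ < (M + 1 : ℕ) * h →
    ∃ b : ℕ → ℂ × ℂ, b 0 = a ∧ b (M + 1) = ζ ∧ (∀ j ≤ M + 1, b j ∈ Ω) ∧
      (∀ j < M + 1, kob Ω (b j) (b (j + 1)) ≤ h) ∧
      (∀ j ≤ M + 1, kob Ω (b j) ζ ≤ ((M + 1 : ℕ) - j : ℝ) * h) := by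
  induction M with
  | zero =>
    intro a ha hk
    refine ⟨fun j => if j = 0 then a else ζ, by simp, by simp, ?_, ?_, ?_⟩
    · intro j _
      by_cases h0 : j = 0
      · simp [h0, ha]
      · simp [h0, hζ]
    · intro j hj
      have h0 : j = 0 := by omega
      subst h0
      simp only [if_true, zero_add, one_ne_zero, if_false]
      simp at hk
      linarith
    · intro j hj
      by_cases h0 : j = 0
      · subst h0
        simp only [if_true]
        simp at hk ⊢
        linarith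
      · have h1 : j = 1 := by omega
        subst h1
        simp [hK.self ζ hζ]
  | succ M ih =>
    intro a ha hk
    have hk' : kob Ω a ζ < h + (M + 1 : ℕ) * h := by
      have : ((M + 1 + 1 : ℕ) : ℝ) * h = h + (M + 1 : ℕ) * h := by push_cast; ring
      linarith
    obtain ⟨a1, ha1, hs1, hs2⟩ := hK.split a ha ζ hζ h ((M + 1 : ℕ) * h) hh (by positivity) hk'
    obtain ⟨b, hb0, hbM, hbm, hbs, hbd⟩ := ih a1 ha1 hs2
    refine ⟨fun j => if j = 0 then a else b (j - 1), by simp, by simpa using hbM, ?_, ?_, ?_⟩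
    · intro j hj
      by_cases h0 : j = 0
      · simp [h0, ha]
      · simp only [h0, if_false]; exact hbm _ (by omega)
    · intro j hj
      by_cases h0 : j = 0
      · subst h0; simp [hb0]; exact hs1.le
      · simp only [h0, if_false]
        have h1 : j + 1 ≠ 0 := by omega
        simp only [h1, if_false]
        have h2 := hbs (j - 1) (by omega)
        have h3 : j - 1 + 1 = j + 1 - 1 := by omega
        rw [h3] at h2
        exact h2
    · intro j hj
      by_cases h0 : j = 0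
      · subst h0
        simp only [if_true]
        have : (((M + 1 + 1 : ℕ) : ℝ) - (0 : ℕ)) * h = h + (M + 1 : ℕ) * h := by
          push_cast; ring
        rw [this]; exact hk'.le
      · simp only [h0, if_false]
        have h2 := hbd (j - 1) (by omega)
        have h3 : ((j - 1 : ℕ) : ℝ) = (j : ℝ) - 1 := by
          rw [Nat.cast_sub (by omega)]; simp
        rw [h3] at h2
        have h4 : ((M + 1 : ℕ) - ((j : ℝ) - 1)) * h = (((M + 1 + 1 : ℕ) : ℝ) - j) * h := by
          push_cast; ring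
        rw [h4] at h2
        exact h2

/-- Sum of the steps. -/
theorem x_sum (hK : KobFacts Om) {ζ : ℂ × ℂ} (hζ : ζ ∈ Om) {M : ℕ} {b : ℕ → ℂ × ℂ}
    (hbm : ∀ j ≤ M, b j ∈ Om) (hbs : ∀ j < M, kob Om (b j) (b (j + 1)) ≤ 1) {Y : ℕ → ℝ}
    (hY : ∀ j < M, ∀ z : ℂ × ℂ, ext ζ z ≤ 2 * (AA ζ (b j)).re → |z.1.im - ζ.1.im| ≤ Y j) :
    |(b M).1.re - (b 0).1.re| ≤ 7 * ∑ j ∈ Finset.range M, Y j := by
  have key : ∀ m ≤ M, |(b m).1.re - (b 0).1.re| ≤ 7 * ∑ j ∈ Finset.range m, Y j := by
    intro m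
    induction m with
    | zero => intro _; simp
    | succ m ih =>
      intro hm
      have h1 := ih (by omega)
      have h2 := xstep hK hζ (hbm m (by omega)) (hbm (m + 1) hm) (hbs m (by omega))
        (hY m (by omega))
      rw [Finset.sum_range_succ]
      have h3 : (b (m + 1)).1.re - (b 0).1.re = ((b (m + 1)).1.re - (b m).1.re) +
        ((b m).1.re - (b 0).1.re) := by ring
      rw [h3]
      have := abs_add_le ((b (m + 1)).1.re - (b m).1.re) ((b m).1.re - (b 0).1.re)
      linarith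
  exact key M le_rfl

theorem norm_le_coords (z : ℂ × ℂ) : ‖z‖ ≤ |z.1.re| + |z.1.im| + ‖z.2‖ := by
  rw [Prod.norm_def]
  apply max_le
  · have := Complex.norm_le_abs_re_add_abs_im z.1
    linarith [norm_nonneg z.2]
  · linarith [abs_nonneg z.1.re, abs_nonneg z.1.im]

/-- geometric sum -/
theorem geom_le (M : ℕ) : ∑ j ∈ Finset.range M, Real.exp (-((j : ℝ) / 2)) ≤ 3 := by
  have h1 : ∀ j : ℕ, Real.exp (-((j : ℝ) / 2)) = (Real.exp (-(1 / 2))) ^ j := by
    intro j; rw [← Real.exp_nat_mul]; congr 1; ring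
  simp_rw [h1]
  have hx : Real.exp (-(1 / 2)) ≤ 2 / 3 := by
    rw [Real.exp_neg]
    rw [show (2 : ℝ) / 3 = (3 / 2)⁻¹ by norm_num]
    apply inv_anti₀ (by norm_num)
    have := Real.add_one_le_exp (1 / 2 : ℝ)
    linarith
  have hx0 : 0 ≤ Real.exp (-(1 / 2)) := (Real.exp_pos _).le
  have hx1 : Real.exp (-(1 / 2)) < 1 := by linarith
  calc ∑ j ∈ Finset.range M, (Real.exp (-(1 / 2))) ^ j ≤ (1 - Real.exp (-(1 / 2)))⁻¹ := by
        rw [← tsum_geometric_of_lt_one hx0 hx1]
        exact (summable_geometric_of_lt_one hx0 hx1).sum_le_tsum (Finset.range M)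
          (fun _ _ => by positivity)
    _ ≤ 3 := by
      rw [inv_le_comm₀ (by linarith) (by norm_num)]
      linarith

end Pool.TH332.DW
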