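import Mathlib

/-!
Definitions for MP_a95d19_an (Denjoy-Wolff property versus sequential horospheres in
bounded convex domains without analytic discs in the boundary).
-/

namespace Pool.TH332.DW

open Metric Set Filter Topology

/-- The Poincare distance of the unit disc,
`(1/2) log ((1+m)/(1-m))` with `m = |(a-b)/(1 - conj a * b)|`. -/
noncomputable def pdist (a b : ℂ) : ℝ :=
  (1 / 2) * Real.log ((1 + ‖(a - b) / (1 - (starRingEnd ℂ) a * b)‖) /
    (1 - ‖(a - b) / (1 - (starRingEnd ℂ) a * b)‖))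

variable {E : Type*} [NormedAddCommGroup E] [NormedSpace ℂ E]

/-- `DiscChain Ω z w L`: there is a finite chain of holomorphic discs in `Ω` from `z` to `w`
whose Poincare lengths add up to `L`. -/
inductive DiscChain (Ω : Set E) : E → E → ℝ → Prop
  | nil {z : E} (hz : z ∈ Ω) : DiscChain Ω z z 0
  | cons {w : E} {L : ℝ} (φ : ℂ → E) (a b : ℂ)
      (hφ : DifferentiableOn ℂ φ (ball 0 1)) (hm : MapsTo φ (ball 0 1) Ω)
      (ha : a ∈ ball (0 : ℂ) 1) (hb : b ∈ ball (0 : ℂ) 1)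
      (h : DiscChain Ω (φ b) w L) : DiscChain Ω (φ a) w (pdist a b + L)

/-- The Kobayashi (pseudo)distance: the infimum of the lengths of chains of holomorphic discs. -/
noncomputable def kob (Ω : Set E) (z w : E) : ℝ := sInf {L | DiscChain Ω z w L}

/-- The sequential horosphere `E_{z₀}({u_n}, R)`. -/
noncomputable def horosphere (Ω : Set E) (z₀ : E) (u : ℕ → E) (R : ℝ) : Set E :=
  {z ∈ Ω | limsup (fun n => kob Ω z (u n) - kob Ω z₀ (u n)) atTop < (1 / 2) * Real.log R}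

/-- Property (H): every nonempty sequential horosphere touches the boundary in exactly one
point. -/
def PropH (Ω : Set E) : Prop :=
  ∀ z₀ ∈ Ω, ∀ u : ℕ → E, (∀ n, u n ∈ Ω) → ∀ p ∈ frontier Ω, Tendsto u atTop (𝓝 p) →
    ∀ R : ℝ, 0 < R → (horosphere Ω z₀ u R).Nonempty →
      ∃ q, closure (horosphere Ω z₀ u R) ∩ frontier Ω = {q}

/-- The target set `T(F)`: all limits of subsequences of orbits of `F`. -/
def targetSet (Ω : Set E) (F : E → E) : Set E :=
  {q | ∃ z ∈ Ω, ∃ n : ℕ → ℕ, Tendsto n atTop atTop ∧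
    Tendsto (fun k => F^[n k] z) atTop (𝓝 q)}

/-- The Denjoy-Wolff property. -/
def DenjoyWolff (Ω : Set E) : Prop :=
  ∀ F : E → E, DifferentiableOn ℂ F Ω → MapsTo F Ω Ω → (∀ z ∈ Ω, F z ≠ z) →
    ∃ p ∈ frontier Ω, targetSet Ω F = {p}

/-- The boundary of `Ω` contains no non-trivial analytic disc. -/
def NoDiscs (Ω : Set E) : Prop :=
  ∀ φ : ℂ → E, DifferentiableOn ℂ φ (ball 0 1) → MapsTo φ (ball 0 1) (frontier Ω) →
    ∀ a ∈ ball (0 : ℂ) 1, ∀ b ∈ ball (0 : ℂ) 1, φ a = φ b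

/-- `ath r = artanh r`, the Poincare distance from `0` to `r`. -/
noncomputable def ath (r : ℝ) : ℝ := (1 / 2) * Real.log ((1 + r) / (1 - r))

/-! ### The domain -/

/-- `gg q = ∫_0^q exp(-1/s) ds`. -/
noncomputable def gg (q : ℝ) : ℝ := ∫ s in (0 : ℝ)..q, expNegInvGlue s

/-- The positive part `u_+ = (|Im z| - |w|^2/16)_+`. -/
noncomputable def up (z : ℂ × ℂ) : ℝ := max (|z.1.im| - ‖z.2‖ ^ 2 / 16) 0

/-- The positive part `(|Re z| - 1)_+`. -/
noncomputable def xp (z : ℂ × ℂ) : ℝ := max (|z.1.re| - 1) 0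

/-- The defining function. -/
noncomputable def rho (z : ℂ × ℂ) : ℝ :=
  ‖z.2‖ ^ 2 + up z ^ 2 + gg (z.1.im ^ 2 + ‖z.2‖ ^ 2) + xp z ^ 2 - 2 * z.2.re

/-- The domain. -/
def Om : Set (ℂ × ℂ) := {z | rho z < 0}

end Pool.TH332.DW
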