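import Pool.Agent.TH332.DW.LemY

namespace Pool.TH332.DW

open Metric Set Filter Topology

theorem exp_depth {C : ℝ} (hC : ∀ ζ ∈ Om, kob Om z00 ζ ≤ C - (1 / 2) * Real.log (- rho ζ))
    {ζ : ℂ × ℂ} (hζ : ζ ∈ Om) : Real.exp (2 * kob Om z00 ζ) * (- rho ζ) ≤ Real.exp (2 * C) := by
  have hζ' : rho ζ < 0 := hζ
  have h1 := hC ζ hζ
  have h2 : - rho ζ = Real.exp (Real.log (- rho ζ)) := (Real.exp_log (by linarith)).symm
  rw [h2, ← Real.exp_add]
  apply Real.exp_le_exp.2
  linarith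

/-- The convergence statement for a sequence of record points. -/
theorem records_close (hK : KobFacts Om) {C : ℝ} (hC0 : 0 ≤ C)
    (hC : ∀ ζ ∈ Om, kob Om z00 ζ ≤ C - (1 / 2) * Real.log (- rho ζ))
    {w : ℕ → ℂ × ℂ} (hw : ∀ i, w i ∈ Om) {p : ℂ × ℂ} (hp : rho p = 0)
    (hlim : Tendsto w atTop (𝓝 p))
    (hD : Tendsto (fun i => kob Om z00 (w i)) atTop atTop)
    (hrec : ∀ i, ∀ᶠ j in atTop, kob Om (w i) (w j) ≤ kob Om z00 (w j)) {ε : ℝ} (hε : 0 < ε) :
    ∃ η : ℝ, 0 < η ∧ η ≤ 1 / 2 ∧ ∀ᶠ i in atTop, ∀ a ∈ Om, ∀ T : ℝ, 1 ≤ T →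
      T ≤ kob Om z00 (w i) → kob Om a (w i) < T → Real.exp (2 * T) * (- rho (w i)) ≤ η ^ 2 →
      ‖a - w i‖ < ε := by
  have hqc : Continuous qq := by unfold qq; fun_prop
  rcases eq_or_lt_of_le (qq_nonneg p) with hq | hq
  · -- degenerate face
    have hp2 : ‖p.2‖ = 0 := by
      unfold qq at hq; nlinarith [sq_nonneg p.1.im, sq_nonneg ‖p.2‖]
    have hp2' : p.2 = 0 := norm_eq_zero.1 hp2
    -- lower bound for the depth
    obtain ⟨c, hc⟩ : ∃ c : ℝ, c = Real.exp (-(2 * C + 2)) / 25 := ⟨_, rfl⟩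
    have hc0 : 0 < c := by rw [hc]; positivity
    have hspos : ∀ i, 0 < ‖(w i).2‖ := by
      intro i
      have h := (bounds (le_of_lt (hw i))).1
      by_contra hcon
      have h0 : ‖(w i).2‖ = 0 := le_antisymm (not_lt.1 hcon) (norm_nonneg _)
      have h1 : (w i).2 = 0 := norm_eq_zero.1 h0
      have h2 : rho (w i) < 0 := hw i
      unfold rho at h2
      rw [h1] at h2
      have g0 : 0 ≤ gg ((w i).1.im ^ 2 + ‖(0 : ℂ)‖ ^ 2) := gg_nonneg (by positivity)
      have u0 := sq_nonneg (up (w i))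
      have x0 := sq_nonneg (xp (w i))
      simp only [norm_zero, Complex.zero_re] at h2 g0
      norm_num at h2 g0
      linarith
    have hY : ∀ i, c * ‖(w i).2‖ ^ 3 ≤ - rho (w i) := by
      intro i
      have hs := hspos i
      have e1 : ∀ᶠ j in atTop, w j ∈ Om → ∀ z ∈ Om, ‖AA (w j) z - 2 * z.2‖ ≤ ‖(w i).2‖ / 10 :=
        hlim.eventually (AA_near hp hq.symm (by positivity))
      have e2 : ∀ᶠ j in atTop, C - (1 / 2) * Real.log (‖(w i).2‖ / 10) < kob Om z00 (w j) :=
        hD.eventually (eventually_gt_atTop _)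
      obtain ⟨j, hj1, hj2, hj3⟩ := ((hrec i).and (e1.and e2)).exists
      rw [hc]
      exact lemY hK hC0 hC (hw i) (hw j) hj1 (hj2 (hw j)) hj3
    -- the product tends to zero
    have hs0 : Tendsto (fun i => ‖(w i).2‖) atTop (𝓝 0) := by
      have : Tendsto (fun i => ‖(w i).2‖) atTop (𝓝 ‖p.2‖) :=
        (continuous_snd.norm.tendsto p).comp hlim
      rwa [hp2] at this
    have hprod : Tendsto (fun i => 8 * (C + 1 - (1 / 2) * Real.log c) * ‖(w i).2‖ ^ 2
        - 12 * (‖(w i).2‖ * (‖(w i).2‖ * Real.log ‖(w i).2‖))) atTop (𝓝 0) := by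
      have h1 : Continuous fun x : ℝ => 8 * (C + 1 - (1 / 2) * Real.log c) * x ^ 2
        - 12 * (x * (x * Real.log x)) := by
        have := Real.continuous_mul_log
        fun_prop
      have h2 := (h1.tendsto 0).comp hs0
      have e : (8 * (C + 1 - (1 / 2) * Real.log c) * (0 : ℝ) ^ 2
        - 12 * (0 * (0 * Real.log 0))) = 0 := by ring
      rw [e] at h2
      exact h2
    have hev : ∀ᶠ i in atTop, 8 * (C + 1 - (1 / 2) * Real.log c) * ‖(w i).2‖ ^ 2
        - 12 * (‖(w i).2‖ * (‖(w i).2‖ * Real.log ‖(w i).2‖)) < ε / 4 :=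
      hprod.eventually (gt_mem_nhds (by positivity))
    refine ⟨min (1 / 2) (ε / 800), by positivity, min_le_left _ _, ?_⟩
    filter_upwards [hev] with i hi a ha T hT1 hT2 hk hd
    have hη0 : 0 < min (1 / 2) (ε / 800) := by positivity
    have h1 := (lemZ hK (hw i) ha hT1 hk hη0 (min_le_left _ _) hd).1
    have h2 : min (1 / 2) (ε / 800) ≤ ε / 800 := min_le_right _ _
    have h3 : 8 * (T + 1) * ‖(w i).2‖ ^ 2 ≤ 8 * (C + 1 - (1 / 2) * Real.log c) * ‖(w i).2‖ ^ 2
        - 12 * (‖(w i).2‖ * (‖(w i).2‖ * Real.log ‖(w i).2‖)) := by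
      have hs := hspos i
      have h4 := hC (w i) (hw i)
      have h5 := Real.log_le_log (by positivity) (hY i)
      rw [Real.log_mul hc0.ne' (by positivity), Real.log_pow] at h5
      have h6 : T + 1 ≤ C + 1 - (1 / 2) * Real.log c - (3 / 2) * Real.log ‖(w i).2‖ := by
        push_cast at h5
        linarith
      have h7 : 8 * (T + 1) * ‖(w i).2‖ ^ 2 ≤
          8 * (C + 1 - (1 / 2) * Real.log c - (3 / 2) * Real.log ‖(w i).2‖) * ‖(w i).2‖ ^ 2 :=
        mul_le_mul_of_nonneg_right (by linarith) (by positivity)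
      calc _ ≤ _ := h7
        _ = _ := by ring
    linarith
  · -- nondegenerate case
    obtain ⟨e0, he0⟩ : ∃ e0 : ℝ, e0 = expNegInvGlue (qq p / 2) := ⟨_, rfl⟩
    have hepos : 0 < e0 := by rw [he0]; exact expNegInvGlue.pos_of_pos (by linarith)
    obtain ⟨g, hg⟩ : ∃ g : ℝ, g = min 1 (Real.sqrt e0) := ⟨_, rfl⟩
    have hg0 : 0 < g := by rw [hg]; exact lt_min one_pos (Real.sqrt_pos.2 hepos)
    have hg1 : g ≤ 1 := by rw [hg]; exact min_le_left _ _
    have hg2 : g ^ 2 ≤ e0 := by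
      have h1 : g ≤ Real.sqrt e0 := by rw [hg]; exact min_le_right _ _
      calc g ^ 2 ≤ (Real.sqrt e0) ^ 2 := pow_le_pow_left₀ hg0.le h1 2
        _ = e0 := Real.sq_sqrt hepos.le
    have hev : ∀ᶠ i in atTop, qq p / 2 < qq (w i) :=
      ((hqc.tendsto p).comp hlim).eventually (lt_mem_nhds (by linarith))
    refine ⟨min (1 / 2) (ε * g / 120), by positivity, min_le_left _ _, ?_⟩
    filter_upwards [hev] with i hi a ha T hT1 hT2 hk hd
    have hη0 : 0 < min (1 / 2) (ε * g / 120) := by positivity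
    have h1 := (lemZ hK (hw i) ha hT1 hk hη0 (min_le_left _ _) hd).2 g hg0 hg1
      (hg2.trans (by rw [he0]; exact eni_mono hi.le))
    have h2 : min (1 / 2) (ε * g / 120) ≤ ε * g / 120 := min_le_right _ _
    have h3 : 60 * min (1 / 2) (ε * g / 120) / g ≤ ε / 2 := by
      rw [div_le_iff₀ hg0]; linarith
    linarith

theorem dw_Om (hK : KobFacts Om)
    (hCex : ∃ C : ℝ, 0 ≤ C ∧ ∀ ζ ∈ Om, kob Om z00 ζ ≤ C - (1 / 2) * Real.log (- rho ζ))
    (hB : ∀ F : ℂ × ℂ → ℂ × ℂ, DifferentiableOn ℂ F Om → MapsTo F Om Om → (∀ z ∈ Om, F z ≠ z) →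
      Tendsto (fun n : ℕ => kob Om z00 (F^[n] z00)) atTop atTop) : DenjoyWolff Om := by
  intro F hF hm hfix
  obtain ⟨C, hC0, hC⟩ := hCex
  have hDt := hB F hF hm hfix
  have hit : ∀ n : ℕ, ∀ z ∈ Om, F^[n] z ∈ Om := fun n z hz => hm.iterate n hz
  have hne : ∀ n : ℕ, ∀ a ∈ Om, ∀ b ∈ Om, kob Om (F^[n] a) (F^[n] b) ≤ kob Om a b := by
    intro n
    induction n with
    | zero => intro a _ b _; exact le_rfl
    | succ n ih =>
      intro a ha b hb
      rw [Function.iterate_succ_apply', Function.iterate_succ_apply']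
      exact (hK.map_le F hF hm _ (hit n a ha) _ (hit n b hb)).trans (ih a ha b hb)
  obtain ⟨z, hz⟩ : ∃ z : ℕ → ℂ × ℂ, z = fun n => F^[n] z00 := ⟨_, rfl⟩
  have hzm : ∀ n, z n ∈ Om := by intro n; rw [hz]; exact hit n _ z00_mem
  have hDz : Tendsto (fun n => kob Om z00 (z n)) atTop atTop := by rw [hz]; exact hDt
  have hne2 : ∀ l m, l ≤ m → kob Om (z l) (z m) ≤ kob Om z00 (z (m - l)) := by
    intro l m hlm
    have h1 := hne l z00 z00_mem (z (m - l)) (hzm _)
    have h2 : F^[l] (z (m - l)) = z m := by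
      rw [hz]; simp only
      rw [← Function.iterate_add_apply]; congr 1; congr 1; omega
    rw [h2] at h1
    rw [hz] at h1 ⊢
    exact h1
  -- depth tends to zero
  have hδ : ∀ δ₀ > 0, ∀ᶠ n in atTop, - rho (z n) < δ₀ := by
    intro δ₀ hδ₀
    have h1 : ∀ᶠ n in atTop, C - (1 / 2) * Real.log δ₀ < kob Om z00 (z n) :=
      hDz.eventually (eventually_gt_atTop _)
    filter_upwards [h1] with n hn
    by_contra hcon
    push Not at hcon
    have h2 := hC (z n) (hzm n)
    have h3 := Real.log_le_log hδ₀ hcon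
    linarith
  -- records
  have hfreq := Filter.frequently_high_scores hDz
  obtain ⟨φ, hφ, hφr⟩ := Filter.extraction_of_frequently_atTop hfreq
  have hcb : IsCompact (closedBall (0 : ℂ × ℂ) 4) := isCompact_closedBall _ _
  have hin : ∀ n, z (φ n) ∈ closedBall (0 : ℂ × ℂ) 4 := by
    intro n
    rw [mem_closedBall, dist_zero_right]
    exact (bounds (le_of_lt (hzm _))).2.2.2.2
  obtain ⟨p, _, ψ, hψ, hψl⟩ := hcb.tendsto_subseq hin
  obtain ⟨m, hmdef⟩ : ∃ m : ℕ → ℕ, m = fun i => φ (ψ i) := ⟨_, rfl⟩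
  have hmono : StrictMono m := by rw [hmdef]; exact hφ.comp hψ
  have hmt : Tendsto m atTop atTop := hmono.tendsto_atTop
  have hrecm : ∀ i, ∀ k < m i, kob Om z00 (z k) < kob Om z00 (z (m i)) := by
    intro i k hk; rw [hmdef] at hk ⊢; exact hφr (ψ i) k hk
  have hlim : Tendsto (fun i => z (m i)) atTop (𝓝 p) := by rw [hmdef]; exact hψl
  have hDm : Tendsto (fun i => kob Om z00 (z (m i))) atTop atTop := hDz.comp hmt
  have hle : ∀ l i, l ≤ m i → kob Om (z l) (z (m i)) ≤ kob Om z00 (z (m i)) := by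
    intro l i hl
    have h1 := hne2 l (m i) hl
    rcases Nat.eq_zero_or_pos l with h0 | h0
    · subst h0; simpa using h1
    · exact h1.trans (hrecm i (m i - l) (by omega)).le
  have hp0 : rho p = 0 := by
    have h1 : Tendsto (fun i => rho (z (m i))) atTop (𝓝 (rho p)) :=
      (continuous_rho.tendsto p).comp hlim
    have h2 : Tendsto (fun i => rho (z (m i))) atTop (𝓝 0) := by
      rw [Metric.tendsto_nhds]
      intro e he
      filter_upwards [hmt.eventually (hδ e he)] with i hi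
      rw [Real.dist_eq, sub_zero, abs_lt]
      have : rho (z (m i)) < 0 := hzm (m i)
      constructor <;> linarith
    exact tendsto_nhds_unique h1 h2
  have hpf : p ∈ frontier Om := by
    rw [frontier, isOpen_Om.interior_eq]
    refine ⟨mem_closure_of_tendsto hlim (Eventually.of_forall fun i => hzm _), ?_⟩
    intro h
    have : rho p < 0 := h
    linarith
  -- the whole orbit converges to p
  have hconv : Tendsto z atTop (𝓝 p) := by
    rw [Metric.tendsto_nhds]
    intro ε hε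
    obtain ⟨η, hη0, hη1, hηev⟩ := records_close hK hC0 hC (w := fun i => z (m i))
      (fun i => hzm _) hp0 hlim hDm (fun i => by
        filter_upwards [eventually_ge_atTop i] with j hj
        exact hle (m i) j (hmono.monotone hj)) (show 0 < ε / 4 by positivity)
    obtain ⟨τ, hτ⟩ : ∃ τ : ℝ, τ = C - Real.log η := ⟨_, rfl⟩
    have hτ0 : 0 ≤ τ := by
      have : Real.log η ≤ 0 := Real.log_nonpos hη0.le (by linarith)
      rw [hτ]; linarith
    obtain ⟨δ₀, hδ₀, hball⟩ := small_balls hK (τ + 1) (ε / 4) (by positivity)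
    filter_upwards [hδ δ₀ hδ₀] with l hl
    have e1 : ∀ᶠ i in atTop, τ + 1 ≤ kob Om z00 (z (m i)) :=
      hDm.eventually (eventually_ge_atTop _)
    have e2 : ∀ᶠ i in atTop, dist (z (m i)) p < ε / 4 :=
      (Metric.tendsto_nhds.1 hlim) _ (by positivity)
    have e3 : ∀ᶠ i in atTop, l ≤ m i := hmt.eventually (eventually_ge_atTop _)
    obtain ⟨i, hi1, hi2, hi3, hi4⟩ := (e1.and (e2.and (e3.and hηev))).exists
    obtain ⟨a, ha, ha1, ha2⟩ := hK.split (z l) (hzm l) (z (m i)) (hzm _) (τ + 1)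
      (kob Om z00 (z (m i)) - τ) (by linarith) (by linarith) (by
        have := hle l i hi3
        linarith)
    have h1 := hball (z l) (hzm l) hl a ha ha1.le
    have h2 : ‖a - z (m i)‖ < ε / 4 := by
      apply hi4 a ha (kob Om z00 (z (m i)) - τ) (by linarith) (by linarith) ha2
      have h3 := exp_depth hC (hzm (m i))
      have h4 : Real.exp (2 * (kob Om z00 (z (m i)) - τ)) =
          Real.exp (2 * kob Om z00 (z (m i))) * Real.exp (-(2 * τ)) := by
        rw [← Real.exp_add]; congr 1; ring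
      have h5 : Real.exp (2 * C) * Real.exp (-(2 * τ)) = η ^ 2 := by
        rw [← Real.exp_add, hτ]
        have : 2 * C + -(2 * (C - Real.log η)) = Real.log η + Real.log η := by ring
        rw [this, Real.exp_add, Real.exp_log hη0]; ring
      rw [h4, ← h5]
      calc _ = (Real.exp (2 * kob Om z00 (z (m i))) * (- rho (z (m i))))
            * Real.exp (-(2 * τ)) := by ring
        _ ≤ _ := mul_le_mul_of_nonneg_right h3 (Real.exp_pos _).le
    have h6 : dist (z l) p ≤ ‖a - z l‖ + ‖a - z (m i)‖ + dist (z (m i)) p := by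
      have h7 := dist_triangle4 (z l) a (z (m i)) p
      rw [dist_comm (z l) a, dist_eq_norm a (z l), dist_eq_norm a (z (m i))] at h7
      exact h7
    linarith
  refine ⟨p, hpf, ?_⟩
  -- all orbits converge to p
  have hall : ∀ x ∈ Om, Tendsto (fun n => F^[n] x) atTop (𝓝 p) := by
    intro x hx
    rw [Metric.tendsto_nhds]
    intro ε hε
    obtain ⟨δ₀, hδ₀, hball⟩ := small_balls hK (kob Om z00 x) (ε / 2) (by positivity)
    filter_upwards [hδ δ₀ hδ₀, (Metric.tendsto_nhds.1 hconv) (ε / 2) (by positivity)] with n h1 h2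
    have h3 : kob Om (z n) (F^[n] x) ≤ kob Om z00 x := by
      rw [hz]; exact hne n z00 z00_mem x hx
    have h4 := hball (z n) (hzm n) h1 (F^[n] x) (hit n x hx) h3
    have h5 := dist_triangle (F^[n] x) (z n) p
    rw [dist_eq_norm (F^[n] x) (z n)] at h5
    linarith
  ext q
  constructor
  · rintro ⟨x, hx, n, hn, hq⟩
    have h1 := (hall x hx).comp hn
    exact tendsto_nhds_unique hq h1
  · rintro rfl
    exact ⟨z00, z00_mem, id, tendsto_id, hall z00 z00_mem⟩

end Pool.TH332.DW
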