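import Pool.Agent.TH332.DW.Facts
import Pool.Agent.TH111.DW.K1
import Pool.Agent.TH111.DW.B2a
import Pool.Agent.TH416.DW.K2
import Pool.Agent.TH416.DW.K3

/-! The Kobayashi distance of a convex open set satisfies the bundled facts. -/

set_option autoImplicit false

namespace Pool.TH332.DW

open Metric Set Filter Topology

variable {E : Type*} [NormedAddCommGroup E] [NormedSpace ℂ E] {Ω : Set E}

theorem kobFacts (hc : Convex ℝ Ω) (ho : IsOpen Ω) : KobFacts Ω where
  nonneg := kob_nonneg Ω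
  self := fun z hz => kob_self hz
  comm := kob_comm Ω
  triangle := fun z hz v hv w hw => kob_triangle hc ho hz hv hw
  map_le := fun F hF hm z hz w hw => kob_map_le hc ho hF hm hz hw
  half := by
    intro A hA hp z hz w hw
    have h1 : ∀ ε : ℝ, 0 < ε →
        ‖A w - A z‖ ≤ (Real.exp (2 * (kob Ω z w + ε)) - 1) * (A z).re := by
      intro ε hε
      obtain ⟨L, hL, hL'⟩ := exists_chain_lt hc ho hz hw (T := kob Ω z w + ε) (by linarith)
      refine (half_chain hA hp hL').trans ?_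
      refine mul_le_mul_of_nonneg_right ?_ (hp z hz).le
      have : Real.exp (2 * L) ≤ Real.exp (2 * (kob Ω z w + ε)) :=
        Real.exp_le_exp.2 (by linarith)
      linarith
    have h2 : Tendsto (fun ε : ℝ => (Real.exp (2 * (kob Ω z w + ε)) - 1) * (A z).re) (𝓝[>] 0)
        (𝓝 ((Real.exp (2 * (kob Ω z w + 0)) - 1) * (A z).re)) := by
      have hcont : Continuous fun ε : ℝ => (Real.exp (2 * (kob Ω z w + ε)) - 1) * (A z).re := by
        fun_prop
      exact (hcont.tendsto 0).mono_left nhdsWithin_le_nhds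
    rw [add_zero] at h2
    exact ge_of_tendsto h2 (by filter_upwards [self_mem_nhdsWithin] with ε hε using h1 ε hε)
  split := by
    intro z hz w hw s t hs ht hlt
    obtain ⟨L, hL, hL'⟩ := exists_chain_lt hc ho hz hw hlt
    have hL0 : 0 ≤ L := hL'.mem.2.2
    have hst : 0 < s + t := by linarith
    set q : ℝ := L / (s + t) with hq
    have hq0 : 0 ≤ q := by positivity
    have hq1 : q < 1 := by rw [hq, div_lt_one hst]; exact hL
    have hsum : q * s + q * t = L := by rw [hq]; field_simp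
    rw [← hsum] at hL'
    obtain ⟨a, ha1, ha2⟩ := split_chain (mul_nonneg hq0 hs.le) (mul_nonneg hq0 ht.le) hL'
    refine ⟨a, ha1.mem.2.1, ?_, ?_⟩
    · refine (kob_le_of_chain ha1).trans_lt ?_
      nlinarith
    · refine (kob_le_of_chain ha2).trans_lt ?_
      nlinarith
  disc := fun φ c R hR hφ hm α hα β hβ => kob_le_disc hR hφ hm hα hβ
  near := fun z w r hr hb hw => kob_local hr hb hw

/-- homotheties contract, in the metric form -/
theorem homothety_metric [FiniteDimensional ℂ E] (hc : Convex ℝ Ω) (ho : IsOpen Ω)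
    (hb : Bornology.IsBounded Ω) : ∀ c ∈ Ω, ∀ ε : ℝ, 0 < ε → ε < 1 →
      ∃ θ : ℝ, 0 < θ ∧ θ < 1 ∧ ∀ z ∈ Ω, ∀ w ∈ Ω,
      kob Ω (((1 - ε : ℝ) : ℂ) • z + ((ε : ℝ) : ℂ) • c)
        (((1 - ε : ℝ) : ℂ) • w + ((ε : ℝ) : ℂ) • c) ≤ θ * kob Ω z w := by
  intro c hcm ε hε hε1
  obtain ⟨θ, h0, h1, h⟩ := homothety_contract hc ho hb hcm hε hε1
  refine ⟨θ, h0, h1, fun z hz w hw => ?_⟩
  have h2 : ∀ η : ℝ, 0 < η → kob Ω (((1 - ε : ℝ) : ℂ) • z + ((ε : ℝ) : ℂ) • c)
        (((1 - ε : ℝ) : ℂ) • w + ((ε : ℝ) : ℂ) • c) ≤ θ * kob Ω z w + η := by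
    intro η hη
    obtain ⟨L, hL, hL'⟩ := exists_chain_lt hc ho hz hw (T := kob Ω z w + η) (by linarith)
    refine (h z w L hL').trans ?_
    nlinarith
  exact le_of_forall_pos_le_add h2

end Pool.TH332.DW
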