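import Pool.Agent.TH332.DW.LemZ

namespace Pool.TH332.DW

open Metric Set Filter Topology

theorem abs_sign_le' (x : ℝ) : |Real.sign x| ≤ 1 := by
  rcases Real.sign_apply_eq x with h | h | h <;> rw [h] <;> norm_num

theorem up_le_of' {z : ℂ × ℂ} (hz : rho z ≤ 0) : up z ≤ 9 / 4 :=
  (up_le z).trans (bounds hz).2.2.1

theorem half_sq_le_ext (ζ z : ℂ × ℂ) : (1 / 2) * ‖z.2 - ζ.2‖ ^ 2 ≤ ext ζ z := by
  unfold ext
  have s0 := sign_mul_le_abs ζ.1.im z.1.im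
  have hγ : 0 ≤ expNegInvGlue (qq ζ) := expNegInvGlue.nonneg _
  have k2 : 0 ≤ 2 * up ζ * (|z.1.im| - Real.sign ζ.1.im * z.1.im) :=
    mul_nonneg (mul_nonneg (by norm_num) (up_nonneg ζ)) (by linarith)
  have k3 : 0 ≤ expNegInvGlue (qq ζ) * ((z.1.im - ζ.1.im) ^ 2 + ‖z.2 - ζ.2‖ ^ 2) := by
    positivity
  have k4 : 0 ≤ (xp z - xp ζ) ^ 2 := by positivity
  have k5 : 0 ≤ (up z - up ζ) ^ 2 := by positivity
  linarith

/-- the functional at a point near the degenerate face is close to `2 z₂`. -/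
theorem AA_near {p : ℂ × ℂ} (hp : rho p = 0) (hq : qq p = 0) {ε : ℝ} (hε : 0 < ε) :
    ∀ᶠ ζ in 𝓝 p, ζ ∈ Om → ∀ z ∈ Om, ‖AA ζ z - 2 * z.2‖ ≤ ε := by
  have hp1 : p.1.im = 0 := by
    unfold qq at hq; nlinarith [sq_nonneg p.1.im, sq_nonneg ‖p.2‖]
  have hp2 : ‖p.2‖ = 0 := by
    unfold qq at hq; nlinarith [sq_nonneg p.1.im, sq_nonneg ‖p.2‖]
  have hp2' : p.2 = 0 := norm_eq_zero.1 hp2
  have hup : up p = 0 := by unfold up; rw [hp1, hp2]; simp
  have hxp : xp p = 0 := by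
    unfold rho at hp
    rw [hup, hp1, hp2, hp2'] at hp
    have : gg (0 ^ 2 + 0 ^ 2) = 0 := by unfold gg; norm_num
    rw [this] at hp
    simp at hp
    exact hp
  obtain ⟨B, hB⟩ : ∃ B : ℂ × ℂ → ℝ, B = fun ζ => |rho ζ| + 8 * (2 * xp ζ + 2 * up ζ
    + 2 * |ζ.1.im|) + 34 * ‖ζ.2‖ := ⟨_, rfl⟩
  have hBc : Continuous B := by
    rw [hB]
    have h1 := continuous_rho
    have h2 := continuous_xp
    have h3 := continuous_up
    fun_prop
  have hB0 : B p = 0 := by rw [hB]; simp only; rw [hp, hxp, hup, hp1, hp2]; simp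
  have hev : ∀ᶠ ζ in 𝓝 p, B ζ < ε := by
    have : Tendsto B (𝓝 p) (𝓝 0) := by rw [← hB0]; exact hBc.continuousAt
    exact this.eventually (gt_mem_nhds hε)
  filter_upwards [hev] with ζ hζε hζ z hz
  have bζ := bounds (le_of_lt hζ)
  have bz := bounds (le_of_lt hz)
  have hu := up_le_of' (le_of_lt hζ)
  have hu0 := up_nonneg ζ
  have hx0 := xp_nonneg ζ
  have hg1 := eni_le_one (qq ζ)
  have hg0 : 0 ≤ expNegInvGlue (qq ζ) := expNegInvGlue.nonneg _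
  have e1 : AA ζ z - 2 * z.2 = ((- rho ζ : ℝ) : ℂ) - c1 ζ * (z.1 - ζ.1)
      - (((2 - up ζ / 4 + 2 * expNegInvGlue (qq ζ) : ℝ) : ℂ) * (starRingEnd ℂ) ζ.2)
        * (z.2 - ζ.2) - 2 * ζ.2 := by
    unfold AA lin c2
    simp only [Prod.fst_sub, Prod.snd_sub]
    ring
  have hc1 : ‖c1 ζ‖ ≤ 2 * xp ζ + 2 * up ζ + 2 * |ζ.1.im| := by
    unfold c1
    have s1 := abs_sign_le' ζ.1.re
    have s2 := abs_sign_le' ζ.1.im
    calc _ ≤ ‖((2 * xp ζ * Real.sign ζ.1.re : ℝ) : ℂ)‖ +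
        ‖Complex.I * ((2 * up ζ * Real.sign ζ.1.im +
          2 * expNegInvGlue (qq ζ) * ζ.1.im : ℝ) : ℂ)‖ := norm_sub_le _ _
      _ ≤ 2 * xp ζ + (2 * up ζ + 2 * |ζ.1.im|) := by
        rw [norm_mul, Complex.norm_I, one_mul, Complex.norm_real, Complex.norm_real,
          Real.norm_eq_abs, Real.norm_eq_abs]
        have h1 := abs_add_le (2 * up ζ * Real.sign ζ.1.im) (2 * expNegInvGlue (qq ζ) * ζ.1.im)
        have h2 : |2 * xp ζ * Real.sign ζ.1.re| ≤ 2 * xp ζ := by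
          rw [abs_mul, abs_of_nonneg (by positivity : 0 ≤ 2 * xp ζ)]
          have := mul_le_mul_of_nonneg_left s1 (by positivity : 0 ≤ 2 * xp ζ)
          linarith
        have h3 : |2 * up ζ * Real.sign ζ.1.im| ≤ 2 * up ζ := by
          rw [abs_mul, abs_of_nonneg (by positivity : 0 ≤ 2 * up ζ)]
          have := mul_le_mul_of_nonneg_left s2 (by positivity : 0 ≤ 2 * up ζ)
          linarith
        have h4 : |2 * expNegInvGlue (qq ζ) * ζ.1.im| ≤ 2 * |ζ.1.im| := by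
          rw [abs_mul, abs_of_nonneg (by positivity : 0 ≤ 2 * expNegInvGlue (qq ζ))]
          have := mul_le_mul_of_nonneg_right hg1 (abs_nonneg ζ.1.im)
          linarith
        linarith
      _ = _ := by ring
  have n1 : ‖z.1 - ζ.1‖ ≤ 8 := by
    have := norm_sub_le z.1 ζ.1
    have := norm_fst_le z
    have := norm_fst_le ζ
    linarith [bz.2.2.2.2, bζ.2.2.2.2]
  have n2 : ‖z.2 - ζ.2‖ ≤ 8 := by
    have := norm_sub_le z.2 ζ.2
    have := norm_snd_le z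
    have := norm_snd_le ζ
    linarith [bz.2.2.2.2, bζ.2.2.2.2]
  have m1 : ‖c1 ζ * (z.1 - ζ.1)‖ ≤ 8 * (2 * xp ζ + 2 * up ζ + 2 * |ζ.1.im|) := by
    rw [norm_mul]
    calc _ ≤ (2 * xp ζ + 2 * up ζ + 2 * |ζ.1.im|) * 8 :=
          mul_le_mul hc1 n1 (norm_nonneg _) (by positivity)
      _ = _ := by ring
  have m2 : ‖(((2 - up ζ / 4 + 2 * expNegInvGlue (qq ζ) : ℝ) : ℂ) * (starRingEnd ℂ) ζ.2)
        * (z.2 - ζ.2)‖ ≤ 32 * ‖ζ.2‖ := by
    rw [norm_mul, norm_mul, Complex.norm_real, Real.norm_eq_abs, Complex.norm_conj]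
    have k : |2 - up ζ / 4 + 2 * expNegInvGlue (qq ζ)| ≤ 4 := by
      rw [abs_le]; constructor <;> linarith
    calc _ ≤ (4 * ‖ζ.2‖) * 8 := by gcongr
      _ = _ := by ring
  have m3 : ‖2 * ζ.2‖ = 2 * ‖ζ.2‖ := by rw [norm_mul]; simp
  rw [e1]
  calc _ ≤ ‖((- rho ζ : ℝ) : ℂ)‖ + ‖c1 ζ * (z.1 - ζ.1)‖ +
        ‖(((2 - up ζ / 4 + 2 * expNegInvGlue (qq ζ) : ℝ) : ℂ) * (starRingEnd ℂ) ζ.2)
        * (z.2 - ζ.2)‖ + ‖2 * ζ.2‖ := by
        refine (norm_sub_le _ _).trans (add_le_add ((norm_sub_le _ _).trans (add_le_add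
          (norm_sub_le _ _) le_rfl)) le_rfl)
    _ ≤ B ζ := by
      rw [Complex.norm_real, Real.norm_eq_abs, abs_neg, hB]
      simp only
      linarith
    _ ≤ ε := hζε.le

/-- points of a self-accessible sequence near the degenerate face are not too tangential. -/
theorem lemY (hK : KobFacts Om) {C : ℝ} (hC0 : 0 ≤ C)
    (hC : ∀ ζ ∈ Om, kob Om z00 ζ ≤ C - (1 / 2) * Real.log (- rho ζ)) {p ζ : ℂ × ℂ}
    (hp : p ∈ Om) (hζ : ζ ∈ Om) (hk : kob Om p ζ ≤ kob Om z00 ζ)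
    (hA : ∀ z ∈ Om, ‖AA ζ z - 2 * z.2‖ ≤ ‖p.2‖ / 10)
    (hD : C - (1 / 2) * Real.log (‖p.2‖ / 10) < kob Om z00 ζ) :
    Real.exp (-(2 * C + 2)) / 25 * ‖p.2‖ ^ 3 ≤ - rho p := by
  have hp' : rho p < 0 := hp
  have hζ' : rho ζ < 0 := hζ
  have bp := bounds hp'.le
  obtain ⟨s, hs⟩ : ∃ s : ℝ, s = ‖p.2‖ := ⟨_, rfl⟩
  rw [← hs] at hA hD ⊢
  have hs2 : s ≤ 2 := by rw [hs]; exact bp.2.1
  have hs0 : 0 ≤ s := by rw [hs]; exact norm_nonneg _
  rcases eq_or_lt_of_le hs0 with h0 | h0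
  · rw [← h0]; norm_num; linarith
  obtain ⟨t, ht⟩ : ∃ t : ℝ, t = C - (1 / 2) * Real.log (s / 10) := ⟨_, rfl⟩
  rw [← ht] at hD
  have hlog : Real.log (s / 10) ≤ 0 := Real.log_nonpos (by positivity) (by linarith)
  have ht0 : 0 ≤ t := by rw [ht]; linarith
  obtain ⟨a, ha, ha1, ha2⟩ := hK.split p hp ζ hζ (t + 1) (kob Om z00 ζ - t) (by linarith)
    (by linarith) (by linarith)
  -- exp(2D) δ ≤ exp(2C)
  have hexp : Real.exp (2 * kob Om z00 ζ) * (- rho ζ) ≤ Real.exp (2 * C) := by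
    have h1 := hC ζ hζ
    have h2 : - rho ζ = Real.exp (Real.log (- rho ζ)) := (Real.exp_log (by linarith)).symm
    rw [h2, ← Real.exp_add]
    apply Real.exp_le_exp.2
    linarith
  have h1 : ‖AA ζ a‖ ≤ s / 10 := by
    have h2 := AA_le_exp hK (im_le_four hζ) hζ ha
    rw [AA_self, Complex.norm_real, Real.norm_eq_abs, abs_of_pos (by linarith), hK.comm] at h2
    have h3 : Real.exp (2 * kob Om a ζ) ≤ Real.exp (2 * kob Om z00 ζ) * Real.exp (-(2 * t)) := by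
      rw [← Real.exp_add]; apply Real.exp_le_exp.2; linarith
    have h4 : Real.exp (2 * C) * Real.exp (-(2 * t)) = s / 10 := by
      rw [← Real.exp_add]
      have : 2 * C + -(2 * t) = Real.log (s / 10) := by rw [ht]; ring
      rw [this, Real.exp_log (by positivity)]
    calc ‖AA ζ a‖ ≤ Real.exp (2 * kob Om a ζ) * (- rho ζ) := h2
      _ ≤ (Real.exp (2 * kob Om z00 ζ) * Real.exp (-(2 * t))) * (- rho ζ) :=
        mul_le_mul_of_nonneg_right h3 (by linarith)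
      _ = (Real.exp (2 * kob Om z00 ζ) * (- rho ζ)) * Real.exp (-(2 * t)) := by ring
      _ ≤ Real.exp (2 * C) * Real.exp (-(2 * t)) :=
        mul_le_mul_of_nonneg_right hexp (Real.exp_pos _).le
      _ = s / 10 := h4
  have h2 : ‖a.2‖ ≤ s / 10 := by
    have h3 := hA a ha
    have h4 : ‖2 * a.2‖ ≤ ‖AA ζ a - 2 * a.2‖ + ‖AA ζ a‖ := by
      calc ‖2 * a.2‖ = ‖AA ζ a - (AA ζ a - 2 * a.2)‖ := by congr 1; ring
        _ ≤ ‖AA ζ a‖ + ‖AA ζ a - 2 * a.2‖ := norm_sub_le _ _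
        _ = _ := by ring
    rw [norm_mul] at h4
    simp only [Complex.norm_ofNat] at h4
    linarith
  have h3 : 9 / 10 * s ≤ ‖a.2 - p.2‖ := by
    have : ‖p.2‖ ≤ ‖a.2 - p.2‖ + ‖a.2‖ := by
      calc ‖p.2‖ = ‖a.2 - (a.2 - p.2)‖ := by congr 1; ring
        _ ≤ ‖a.2‖ + ‖a.2 - p.2‖ := norm_sub_le _ _
        _ = _ := by ring
    rw [← hs] at this
    linarith
  have h4 : 2 / 5 * s ^ 2 ≤ ext p a := by
    have h5 := half_sq_le_ext p a
    have h6 := pow_le_pow_left₀ (by positivity) h3 2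
    nlinarith
  have h5 : ext p a ≤ Real.exp (2 * (t + 1)) * (- rho p) := by
    have h6 := ext_le_AA hp ha
    have h7 := AA_le_exp hK (im_le_four hp) hp ha
    rw [AA_self, Complex.norm_real, Real.norm_eq_abs, abs_of_pos (by linarith)] at h7
    have h8 : Real.exp (2 * kob Om p a) ≤ Real.exp (2 * (t + 1)) :=
      Real.exp_le_exp.2 (by linarith)
    calc ext p a ≤ (AA p a).re := h6
      _ ≤ ‖AA p a‖ := Complex.re_le_norm _
      _ ≤ Real.exp (2 * kob Om p a) * (- rho p) := h7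
      _ ≤ _ := mul_le_mul_of_nonneg_right h8 (by linarith)
  have h6 : Real.exp (-(2 * C + 2)) * (s / 10) * Real.exp (2 * (t + 1)) = 1 := by
    have : (s / 10) = Real.exp (Real.log (s / 10)) := (Real.exp_log (by positivity)).symm
    rw [this, ← Real.exp_add, ← Real.exp_add]
    rw [Real.exp_eq_one_iff, ht]
    ring
  have h7 : 2 / 5 * s ^ 2 ≤ Real.exp (2 * (t + 1)) * (- rho p) := h4.trans h5
  have h8 := mul_le_mul_of_nonneg_left h7
    (by positivity : 0 ≤ Real.exp (-(2 * C + 2)) * (s / 10))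
  have h9 : Real.exp (-(2 * C + 2)) * (s / 10) * (Real.exp (2 * (t + 1)) * (- rho p))
      = - rho p := by
    rw [← mul_assoc, h6, one_mul]
  rw [h9] at h8
  calc _ = Real.exp (-(2 * C + 2)) * (s / 10) * (2 / 5 * s ^ 2) := by ring
    _ ≤ - rho p := h8

end Pool.TH332.DW
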