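import Pool.Agent.TH332.DW.Chain

namespace Pool.TH332.DW

open Metric Set Filter Topology

theorem lemZ (hK : KobFacts Om) {ζ a : ℂ × ℂ} (hζ : ζ ∈ Om) (ha : a ∈ Om) {T η : ℝ}
    (hT : 1 ≤ T) (hk : kob Om a ζ < T) (hη : 0 < η) (hη1 : η ≤ 1 / 2)
    (hd : Real.exp (2 * T) * (- rho ζ) ≤ η ^ 2) :
    ‖a - ζ‖ ≤ 200 * η + 8 * (T + 1) * ‖ζ.2‖ ^ 2 ∧
      ∀ g : ℝ, 0 < g → g ≤ 1 → g ^ 2 ≤ expNegInvGlue (qq ζ) → ‖a - ζ‖ ≤ 60 * η / g := by
  have hζ' : rho ζ < 0 := hζ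
  obtain ⟨δ, hδ⟩ : ∃ δ : ℝ, δ = - rho ζ := ⟨_, rfl⟩
  rw [← hδ] at hd
  have hδ0 : 0 < δ := by rw [hδ]; linarith
  -- number of pieces
  obtain ⟨M, hM⟩ : ∃ M : ℕ, M + 1 = ⌈T⌉₊ := by
    have : 0 < ⌈T⌉₊ := Nat.ceil_pos.2 (by linarith)
    exact ⟨⌈T⌉₊ - 1, by omega⟩
  have hM1 : T ≤ ((M + 1 : ℕ) : ℝ) := by rw [hM]; exact Nat.le_ceil T
  have hM2 : ((M + 1 : ℕ) : ℝ) ≤ T + 1 := by
    rw [hM]; exact (Nat.ceil_lt_add_one (by linarith)).le
  have hMpos : (0 : ℝ) < ((M + 1 : ℕ) : ℝ) := by linarith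
  obtain ⟨h, hh⟩ : ∃ h : ℝ, h = T / ((M + 1 : ℕ) : ℝ) := ⟨_, rfl⟩
  have hh0 : 0 < h := by rw [hh]; positivity
  have hh1 : h ≤ 1 := by rw [hh, div_le_one hMpos]; exact hM1
  have hh2 : 1 / 2 ≤ h := by
    rw [hh, div_le_div_iff₀ (by norm_num) hMpos]; linarith
  have hMh : ((M + 1 : ℕ) : ℝ) * h = T := by rw [hh]; field_simp
  obtain ⟨b, hb0, hbM, hbm, hbs, hbd⟩ := exists_nodes hK hζ hh0 M a ha (by rw [hMh]; exact hk)
  have hAA : ∀ j ≤ M + 1, (AA ζ (b j)).re ≤ η ^ 2 * Real.exp (-(j : ℝ)) := by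
    intro j hj
    have h1 := AA_le_exp hK (im_le_four hζ) hζ (hbm j hj)
    rw [AA_self, Complex.norm_real, Real.norm_eq_abs, ← hδ, abs_of_pos hδ0] at h1
    have h2 := hbd j hj
    rw [hK.comm] at h2
    have h3 : 2 * kob Om ζ (b j) ≤ 2 * T + -(j : ℝ) := by
      have e : (((M + 1 : ℕ) : ℝ) - j) * h = T - j * h := by rw [sub_mul, hMh]
      rw [e] at h2
      have h5 : (j : ℝ) * (1 / 2) ≤ j * h := mul_le_mul_of_nonneg_left hh2 (Nat.cast_nonneg j)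
      linarith
    have h4 : Real.exp (2 * kob Om ζ (b j)) ≤ Real.exp (2 * T) * Real.exp (-(j : ℝ)) := by
      rw [← Real.exp_add]; exact Real.exp_le_exp.2 h3
    calc (AA ζ (b j)).re ≤ ‖AA ζ (b j)‖ := Complex.re_le_norm _
      _ ≤ Real.exp (2 * kob Om ζ (b j)) * δ := h1
      _ ≤ (Real.exp (2 * T) * Real.exp (-(j : ℝ))) * δ :=
        mul_le_mul_of_nonneg_right h4 hδ0.le
      _ = (Real.exp (2 * T) * δ) * Real.exp (-(j : ℝ)) := by ring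
      _ ≤ η ^ 2 * Real.exp (-(j : ℝ)) := mul_le_mul_of_nonneg_right hd (Real.exp_pos _).le
  -- radii
  obtain ⟨r, hr⟩ : ∃ r : ℕ → ℝ, r = fun j : ℕ => 3 / 2 * η * Real.exp (-((j : ℝ) / 2)) := ⟨_, rfl⟩
  have hr0 : ∀ j, 0 ≤ r j := by intro j; rw [hr]; positivity
  have hr1 : ∀ j, r j ≤ 1 := by
    intro j
    rw [hr]
    have : Real.exp (-((j : ℝ) / 2)) ≤ 1 := by
      rw [Real.exp_le_one_iff]
      have : (0 : ℝ) ≤ j := Nat.cast_nonneg j
      linarith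
    have h2 : 3 / 2 * η * Real.exp (-((j : ℝ) / 2)) ≤ 3 / 2 * η * 1 :=
      mul_le_mul_of_nonneg_left this (by positivity)
    simp only
    linarith
  have hr2 : ∀ j, r j ^ 2 = 9 / 4 * η ^ 2 * Real.exp (-(j : ℝ)) := by
    intro j
    rw [hr]
    simp only
    rw [mul_pow, mul_pow, ← Real.exp_nat_mul]
    congr 1
    · ring
    · congr 1; push_cast; ring
  have hrs : ∑ j ∈ Finset.range (M + 1), r j ≤ 9 / 2 * η := by
    rw [hr]
    simp only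
    rw [← Finset.mul_sum]
    have := geom_le (M + 1)
    nlinarith
  have hle : ∀ j < M + 1, 2 * (AA ζ (b j)).re ≤ r j ^ 2 := by
    intro j hj
    rw [hr2]
    have h1 := hAA j hj.le
    have h2 : 0 < η ^ 2 * Real.exp (-(j : ℝ)) := by positivity
    linarith
  have hbs1 : ∀ j < M + 1, kob Om (b j) (b (j + 1)) ≤ 1 := fun j hj => (hbs j hj).trans hh1
  have hext0 : ext ζ a ≤ η ^ 2 := by
    have h1 := ext_le_AA hζ ha
    have h2 := hAA 0 (by omega)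
    rw [hb0] at h2
    simp at h2
    linarith
  have hw := wbound hext0 hη.le
  have hn := norm_le_coords (a - ζ)
  have e1 : (a - ζ).1.re = a.1.re - ζ.1.re := rfl
  have e2 : (a - ζ).1.im = a.1.im - ζ.1.im := rfl
  have e3 : (a - ζ).2 = a.2 - ζ.2 := rfl
  rw [e1, e2, e3] at hn
  constructor
  · have hx := x_sum hK hζ (M := M + 1) hbm hbs1
      (Y := fun j => 5 * r j + ‖ζ.2‖ ^ 2) (by
        intro j hj z hz
        exact ybound1 (hz.trans (hle j hj)) (hr0 j) (hr1 j))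
    rw [hb0, hbM, Finset.sum_add_distrib, ← Finset.mul_sum, Finset.sum_const,
      Finset.card_range, nsmul_eq_mul, abs_sub_comm] at hx
    have hy := ybound1 hext0 hη.le (by linarith)
    have h0 : 0 ≤ ‖ζ.2‖ ^ 2 := by positivity
    have h1 : ((M + 1 : ℕ) : ℝ) * ‖ζ.2‖ ^ 2 ≤ (T + 1) * ‖ζ.2‖ ^ 2 :=
      mul_le_mul_of_nonneg_right hM2 h0
    have h2 : ‖ζ.2‖ ^ 2 ≤ (T + 1) * ‖ζ.2‖ ^ 2 := by nlinarith
    linarith
  · intro g hg hg1 hg2
    have hx := x_sum hK hζ (M := M + 1) hbm hbs1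
      (Y := fun j => r j / g) (by
        intro j hj z hz
        exact ybound2 (hz.trans (hle j hj)) (hr0 j) hg hg2)
    rw [hb0, hbM, ← Finset.sum_div, abs_sub_comm] at hx
    have hy := ybound2 hext0 hη.le hg hg2
    rw [le_div_iff₀ hg]
    have h1 : (7 * ((∑ j ∈ Finset.range (M + 1), r j) / g)) * g
        = 7 * ∑ j ∈ Finset.range (M + 1), r j := by field_simp
    have h2 : η / g * g = η := by field_simp
    have h3 : ‖a.2 - ζ.2‖ * g ≤ 3 / 2 * η := by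
      calc ‖a.2 - ζ.2‖ * g ≤ ‖a.2 - ζ.2‖ * 1 :=
            mul_le_mul_of_nonneg_left hg1 (norm_nonneg _)
        _ ≤ 3 / 2 * η := by linarith
    have h4 : |a.1.re - ζ.1.re| * g ≤ 7 * ∑ j ∈ Finset.range (M + 1), r j := by
      rw [← h1]; exact mul_le_mul_of_nonneg_right hx hg.le
    have h5 : |a.1.im - ζ.1.im| * g ≤ η := by
      rw [← h2]; exact mul_le_mul_of_nonneg_right hy hg.le
    have h6 : ‖a - ζ‖ * g ≤ (|a.1.re - ζ.1.re| + |a.1.im - ζ.1.im| + ‖a.2 - ζ.2‖) * g :=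
      mul_le_mul_of_nonneg_right hn hg.le
    linarith

theorem eni_mono {x y : ℝ} (h : x ≤ y) : expNegInvGlue x ≤ expNegInvGlue y := by
  unfold expNegInvGlue
  by_cases hx : x ≤ 0
  · rw [if_pos hx]
    split_ifs
    · exact le_rfl
    · exact (Real.exp_pos _).le
  · push Not at hx
    rw [if_neg (not_le.2 hx), if_neg (not_le.2 (hx.trans_le h))]
    apply Real.exp_le_exp.2
    have := inv_anti₀ hx h
    linarith

/-- Near the boundary, Kobayashi balls of fixed radius are small. -/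
theorem small_balls (hK : KobFacts Om) (s ε : ℝ) (hε : 0 < ε) :
    ∃ δ₀ : ℝ, 0 < δ₀ ∧ ∀ z ∈ Om, - rho z < δ₀ → ∀ a ∈ Om, kob Om z a ≤ s → ‖a - z‖ < ε := by
  obtain ⟨T, hT⟩ : ∃ T : ℝ, T = |s| + 1 := ⟨_, rfl⟩
  have hT1 : 1 ≤ T := by rw [hT]; linarith [abs_nonneg s]
  have hTs : s < T := by rw [hT]; linarith [le_abs_self s]
  obtain ⟨κ, hκ⟩ : ∃ κ : ℝ, κ = ε / (32 * (T + 1)) := ⟨_, rfl⟩
  have hκ0 : 0 < κ := by rw [hκ]; positivity
  obtain ⟨g, hg⟩ : ∃ g : ℝ, g = min 1 (Real.sqrt (expNegInvGlue κ)) := ⟨_, rfl⟩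
  have hepos : 0 < expNegInvGlue κ := expNegInvGlue.pos_of_pos hκ0
  have hg0 : 0 < g := by rw [hg]; exact lt_min one_pos (Real.sqrt_pos.2 hepos)
  have hg1 : g ≤ 1 := by rw [hg]; exact min_le_left _ _
  have hg2 : g ^ 2 ≤ expNegInvGlue κ := by
    have h1 : g ≤ Real.sqrt (expNegInvGlue κ) := by rw [hg]; exact min_le_right _ _
    calc g ^ 2 ≤ (Real.sqrt (expNegInvGlue κ)) ^ 2 := pow_le_pow_left₀ hg0.le h1 2
      _ = expNegInvGlue κ := Real.sq_sqrt hepos.le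
  obtain ⟨η, hη⟩ : ∃ η : ℝ, η = min (1 / 2) (min (ε / 800) (ε * g / 120)) := ⟨_, rfl⟩
  have hη0 : 0 < η := by rw [hη]; positivity
  have hη1 : η ≤ 1 / 2 := by rw [hη]; exact min_le_left _ _
  have hη2 : η ≤ ε / 800 := by rw [hη]; exact (min_le_right _ _).trans (min_le_left _ _)
  have hη3 : η ≤ ε * g / 120 := by rw [hη]; exact (min_le_right _ _).trans (min_le_right _ _)
  refine ⟨η ^ 2 * Real.exp (-(2 * T)), by positivity, ?_⟩
  intro z hz hδ a ha hka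
  have hd : Real.exp (2 * T) * (- rho z) ≤ η ^ 2 := by
    have h1 := mul_le_mul_of_nonneg_left hδ.le (Real.exp_pos (2 * T)).le
    have h2 : Real.exp (2 * T) * (η ^ 2 * Real.exp (-(2 * T))) = η ^ 2 := by
      rw [mul_comm, mul_assoc, ← Real.exp_add]; simp
    linarith
  have hk' : kob Om a z < T := by rw [hK.comm]; linarith
  obtain ⟨h1, h2⟩ := lemZ hK hz ha hT1 hk' hη0 hη1 hd
  rcases le_total κ (qq z) with hq | hq
  · have h3 := h2 g hg0 hg1 (hg2.trans (eni_mono hq))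
    have h4 : 60 * η / g ≤ ε / 2 := by
      rw [div_le_iff₀ hg0]; linarith
    linarith
  · have h3 : ‖z.2‖ ^ 2 ≤ κ := by
      have : ‖z.2‖ ^ 2 ≤ qq z := by unfold qq; linarith [sq_nonneg z.1.im]
      linarith
    have h4 : 8 * (T + 1) * ‖z.2‖ ^ 2 ≤ 8 * (T + 1) * κ :=
      mul_le_mul_of_nonneg_left h3 (by linarith)
    have h5 : 8 * (T + 1) * κ = ε / 4 := by
      rw [hκ]; field_simp; ring
    linarith

end Pool.TH332.DW
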