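import Pool.Agent.TH332.DW.Est

namespace Pool.TH332.DW

open Metric Set Filter Topology

theorem AA_affine (ζ a b : ℂ × ℂ) (c : ℂ) :
    AA ζ (a + c • (b - a)) = AA ζ a + c * (AA ζ b - AA ζ a) := by
  unfold AA lin
  simp
  ring

theorem exp_two_lt : Real.exp 2 < 8 := by
  have h1 := Real.exp_one_lt_d9
  have h2 : Real.exp 2 = Real.exp 1 * Real.exp 1 := by rw [← Real.exp_add]; norm_num
  have h3 := Real.exp_pos 1
  rw [h2]
  nlinarith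

theorem AA_diff_le (hK : KobFacts Om) {ζ : ℂ × ℂ} (hζ : |ζ.1.im| ≤ 4) {a b : ℂ × ℂ} (ha : a ∈ Om)
    (hb : b ∈ Om) (hk : kob Om a b ≤ 1) : ‖AA ζ b - AA ζ a‖ ≤ 7 * (AA ζ a).re := by
  have h1 := AA_half hK hζ ha hb
  have h2 := AA_re_pos hζ ha
  have h3 : Real.exp (2 * kob Om a b) ≤ Real.exp 2 := Real.exp_le_exp.2 (by linarith)
  have h4 := exp_two_lt
  have h5 : (Real.exp (2 * kob Om a b) - 1) * (AA ζ a).re ≤ 7 * (AA ζ a).re :=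
    mul_le_mul_of_nonneg_right (by linarith) h2.le
  linarith

theorem AA_diff_lt (hK : KobFacts Om) {ζ : ℂ × ℂ} (hζ : |ζ.1.im| ≤ 4) {a b : ℂ × ℂ} (ha : a ∈ Om)
    (hb : b ∈ Om) (hk : kob Om a b ≤ 1) : ‖AA ζ b - AA ζ a‖ < 7 * (AA ζ a).re := by
  have h1 := AA_half hK hζ ha hb
  have h2 := AA_re_pos hζ ha
  have h3 : Real.exp (2 * kob Om a b) ≤ Real.exp 2 := Real.exp_le_exp.2 (by linarith)
  have h4 := exp_two_lt
  have h5 : (Real.exp (2 * kob Om a b) - 1) * (AA ζ a).re < 7 * (AA ζ a).re :=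
    mul_lt_mul_of_pos_right (by linarith) h2
  linarith

theorem seg_mem (hK : KobFacts Om) {a b : ℂ × ℂ} (ha : a ∈ Om) (hb : b ∈ Om)
    (hk : kob Om a b ≤ 1) {c : ℂ} (hc : ‖c‖ ≤ 1 / 7) : rho (a + c • (b - a)) < 0 := by
  set ζ := a + c • (b - a) with hζ
  have ba := bounds (le_of_lt ha)
  have bb := bounds (le_of_lt hb)
  have h4 : |ζ.1.im| ≤ 4 := by
    have e : ζ.1.im = a.1.im + (c * (b.1 - a.1)).im := by rw [hζ]; simp
    rw [e]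
    have h1 := abs_add_le a.1.im (c * (b.1 - a.1)).im
    have h2 := Complex.abs_im_le_norm (c * (b.1 - a.1))
    rw [norm_mul] at h2
    have h3 : ‖b.1 - a.1‖ ≤ 8 := by
      have := norm_sub_le b.1 a.1
      have := norm_fst_le a
      have := norm_fst_le b
      linarith [ba.2.2.2.2, bb.2.2.2.2]
    have h5 : ‖c‖ * ‖b.1 - a.1‖ ≤ 1 / 7 * 8 := mul_le_mul hc h3 (norm_nonneg _) (by norm_num)
    linarith [ba.2.2.1]
  have h1 := AA_diff_lt hK h4 ha hb hk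
  have h2 := AA_re_pos h4 ha
  have h3 := AA_affine ζ a b c
  rw [← hζ, AA_self] at h3
  have h5 := congrArg Complex.re h3
  rw [Complex.ofReal_re, Complex.add_re] at h5
  have h6 : -(‖c‖ * ‖AA ζ b - AA ζ a‖) ≤ (c * (AA ζ b - AA ζ a)).re := by
    rw [← norm_mul]
    have := Complex.abs_re_le_norm (c * (AA ζ b - AA ζ a))
    linarith [(abs_le.1 this).1]
  have h7 : ‖c‖ * ‖AA ζ b - AA ζ a‖ ≤ 1 / 7 * ‖AA ζ b - AA ζ a‖ :=
    mul_le_mul_of_nonneg_right hc (norm_nonneg _)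
  linarith

theorem im_le_four {z : ℂ × ℂ} (hz : z ∈ Om) : |z.1.im| ≤ 4 :=
  (bounds (le_of_lt hz)).2.2.1.trans (by norm_num)

theorem ext_le_AA {ζ : ℂ × ℂ} (hζ : ζ ∈ Om) {z : ℂ × ℂ} (hz : z ∈ Om) :
    ext ζ z ≤ (AA ζ z).re := by
  have h1 := AA_re (im_le_four hζ) z
  have h2 : rho z < 0 := hz
  linarith

theorem seg_ext (hK : KobFacts Om) {ζ a b : ℂ × ℂ} (hζ : ζ ∈ Om) (ha : a ∈ Om) (hb : b ∈ Om)
    (hk : kob Om a b ≤ 1) {c : ℂ} (hc : ‖c‖ ≤ 1 / 7) :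
    ext ζ (a + c • (b - a)) ≤ 2 * (AA ζ a).re := by
  have h0 := seg_mem hK ha hb hk hc
  have h1 := ext_le_AA hζ h0
  have h2 := AA_affine ζ a b c
  have h3 := AA_diff_le hK (im_le_four hζ) ha hb hk
  rw [h2, Complex.add_re] at h1
  have h6 : (c * (AA ζ b - AA ζ a)).re ≤ ‖c‖ * ‖AA ζ b - AA ζ a‖ := by
    rw [← norm_mul]; exact Complex.re_le_norm _
  have h7 : ‖c‖ * ‖AA ζ b - AA ζ a‖ ≤ 1 / 7 * ‖AA ζ b - AA ζ a‖ :=
    mul_le_mul_of_nonneg_right hc (norm_nonneg _)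
  linarith

/-- the crude bound for the `y`-coordinate -/
theorem ybound {ζ z : ℂ × ℂ} {r : ℝ} (h : ext ζ z ≤ r ^ 2) (hr : 0 ≤ r) :
    |z.1.im - ζ.1.im| ≤ 4 * r + (‖ζ.2‖ ^ 2 + ‖z.2‖ ^ 2) / 16 := by
  obtain ⟨a, ha⟩ : ∃ a, a = up ζ := ⟨_, rfl⟩
  obtain ⟨b, hb⟩ : ∃ b, b = up z := ⟨_, rfl⟩
  obtain ⟨y, hy⟩ : ∃ y, y = ζ.1.im := ⟨_, rfl⟩
  obtain ⟨y', hy'⟩ : ∃ y', y' = z.1.im := ⟨_, rfl⟩
  obtain ⟨W, hW⟩ : ∃ W, W = ‖ζ.2‖ ^ 2 := ⟨_, rfl⟩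
  obtain ⟨W', hW'⟩ : ∃ W', W' = ‖z.2‖ ^ 2 := ⟨_, rfl⟩
  have hW0 : 0 ≤ W := by rw [hW]; positivity
  have hW0' : 0 ≤ W' := by rw [hW']; positivity
  have a0 : 0 ≤ a := by rw [ha]; exact up_nonneg _
  have b0 : 0 ≤ b := by rw [hb]; exact up_nonneg _
  have a1 : |y| ≤ a + W / 16 := by
    have : |ζ.1.im| - ‖ζ.2‖ ^ 2 / 16 ≤ up ζ := le_max_left _ _
    rw [ha, hy, hW]; linarith
  have b1 : |y'| ≤ b + W' / 16 := by
    have : |z.1.im| - ‖z.2‖ ^ 2 / 16 ≤ up z := le_max_left _ _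
    rw [hb, hy', hW']; linarith
  have a2 : a ≤ |y| := by rw [ha, hy]; exact up_le _
  have b2 : b ≤ |y'| := by rw [hb, hy']; exact up_le _
  have s0 := sign_mul_le_abs y y'
  have hγ : 0 ≤ expNegInvGlue (qq ζ) := expNegInvGlue.nonneg _
  have t1 : (b - a) ^ 2 ≤ r ^ 2 ∧ 2 * a * (|y'| - Real.sign y * y') ≤ r ^ 2 := by
    unfold ext at h
    rw [← ha, ← hb, ← hy, ← hy'] at h
    have k1 : 0 ≤ (1 / 2) * ‖z.2 - ζ.2‖ ^ 2 := by positivity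
    have k2 : 0 ≤ 2 * a * (|y'| - Real.sign y * y') := mul_nonneg (by positivity) (by linarith)
    have k3 : 0 ≤ expNegInvGlue (qq ζ) * ((y' - y) ^ 2 + ‖z.2 - ζ.2‖ ^ 2) := by positivity
    have k4 : 0 ≤ (xp z - xp ζ) ^ 2 := by positivity
    have k5 : 0 ≤ (b - a) ^ 2 := by positivity
    constructor <;> linarith
  have t2 : |b - a| ≤ r := abs_le_of_sq_le_sq t1.1 hr
  have t3 := abs_le.1 t2
  rw [← hy, ← hy', ← hW, ← hW']
  rcases lt_trichotomy y 0 with hs | hs | hs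
  · have t4 := t1.2
    rw [Real.sign_of_neg hs] at t4
    rw [abs_of_neg hs] at a1 a2
    rcases le_total y' 0 with h' | h'
    · rw [abs_of_nonpos h'] at b1 b2
      rw [abs_le]; constructor <;> linarith
    · rw [abs_of_nonneg h'] at b1 b2 t4
      have t5 : a ≤ (3 / 2) * r := by
        by_contra hcon
        push Not at hcon
        have : b ≤ r / 6 := by
          by_contra hc2
          push Not at hc2
          nlinarith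
        linarith
      rw [abs_of_nonneg (by linarith)]
      linarith
  · rw [hs] at a2
    simp only [abs_zero] at a2
    rw [hs, sub_zero]
    linarith
  · have t4 := t1.2
    rw [Real.sign_of_pos hs] at t4
    rw [abs_of_pos hs] at a1 a2
    rcases le_total y' 0 with h' | h'
    · rw [abs_of_nonpos h'] at b1 b2 t4
      have t5 : a ≤ (3 / 2) * r := by
        by_contra hcon
        push Not at hcon
        have : b ≤ r / 6 := by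
          by_contra hc2
          push Not at hc2
          nlinarith
        linarith
      rw [abs_of_nonpos (by linarith)]
      linarith
    · rw [abs_of_nonneg h'] at b1 b2
      rw [abs_le]; constructor <;> linarith

theorem wbound {ζ z : ℂ × ℂ} {r : ℝ} (h : ext ζ z ≤ r ^ 2) (hr : 0 ≤ r) :
    ‖z.2 - ζ.2‖ ≤ 3 / 2 * r := by
  have h1 : (1 / 2) * ‖z.2 - ζ.2‖ ^ 2 ≤ ext ζ z := by
    unfold ext
    have s0 := sign_mul_le_abs ζ.1.im z.1.im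
    have hγ : 0 ≤ expNegInvGlue (qq ζ) := expNegInvGlue.nonneg _
    have k2 : 0 ≤ 2 * up ζ * (|z.1.im| - Real.sign ζ.1.im * z.1.im) :=
      mul_nonneg (mul_nonneg (by norm_num) (up_nonneg ζ)) (by linarith)
    have k3 : 0 ≤ expNegInvGlue (qq ζ) * ((z.1.im - ζ.1.im) ^ 2 + ‖z.2 - ζ.2‖ ^ 2) := by
      positivity
    have k4 : 0 ≤ (xp z - xp ζ) ^ 2 := by positivity
    have k5 : 0 ≤ (up z - up ζ) ^ 2 := by positivity
    linarith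
  have h2 : ‖z.2 - ζ.2‖ ^ 2 ≤ (3 / 2 * r) ^ 2 := by nlinarith
  exact abs_le_of_sq_le_sq' h2 (by positivity) |>.2

/-- first bound -/
theorem ybound1 {ζ z : ℂ × ℂ} {r : ℝ} (h : ext ζ z ≤ r ^ 2) (hr : 0 ≤ r) (hr1 : r ≤ 1) :
    |z.1.im - ζ.1.im| ≤ 5 * r + ‖ζ.2‖ ^ 2 := by
  have h1 := ybound h hr
  have h2 := wbound h hr
  have h3 : ‖z.2‖ ≤ ‖ζ.2‖ + 3 / 2 * r := by
    calc ‖z.2‖ = ‖(z.2 - ζ.2) + ζ.2‖ := by rw [sub_add_cancel]
      _ ≤ ‖z.2 - ζ.2‖ + ‖ζ.2‖ := norm_add_le _ _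
      _ ≤ _ := by linarith
  have h4 : ‖z.2‖ ^ 2 ≤ 2 * ‖ζ.2‖ ^ 2 + 5 * r ^ 2 := by
    have := pow_le_pow_left₀ (norm_nonneg z.2) h3 2
    nlinarith [sq_nonneg (‖ζ.2‖ - 3 / 2 * r)]
  have h5 : r ^ 2 ≤ r := by nlinarith
  have h6 : 0 ≤ ‖ζ.2‖ ^ 2 := by positivity
  linarith

/-- second bound -/
theorem ybound2 {ζ z : ℂ × ℂ} {r g : ℝ} (h : ext ζ z ≤ r ^ 2) (hr : 0 ≤ r) (hg : 0 < g)
    (hg2 : g ^ 2 ≤ expNegInvGlue (qq ζ)) :
    |z.1.im - ζ.1.im| ≤ r / g := by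
  have h1 : expNegInvGlue (qq ζ) * (z.1.im - ζ.1.im) ^ 2 ≤ ext ζ z := by
    unfold ext
    have s0 := sign_mul_le_abs ζ.1.im z.1.im
    have hγ : 0 ≤ expNegInvGlue (qq ζ) := expNegInvGlue.nonneg _
    have k2 : 0 ≤ 2 * up ζ * (|z.1.im| - Real.sign ζ.1.im * z.1.im) :=
      mul_nonneg (mul_nonneg (by norm_num) (up_nonneg ζ)) (by linarith)
    have k3 : 0 ≤ expNegInvGlue (qq ζ) * ‖z.2 - ζ.2‖ ^ 2 := by positivity
    have k4 : 0 ≤ (xp z - xp ζ) ^ 2 := by positivity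
    have k5 : 0 ≤ (up z - up ζ) ^ 2 := by positivity
    have k6 : 0 ≤ ‖z.2 - ζ.2‖ ^ 2 := by positivity
    linarith
  rw [le_div_iff₀ hg]
  have h2 : (|z.1.im - ζ.1.im| * g) ^ 2 ≤ r ^ 2 := by
    rw [mul_pow, sq_abs]
    nlinarith [sq_nonneg (z.1.im - ζ.1.im)]
  exact abs_le_of_sq_le_sq' h2 hr |>.2

/-- one step: the displacement in the `x`-direction is controlled by the `y`-width. -/
theorem xstep (hK : KobFacts Om) {ζ a b : ℂ × ℂ} (hζ : ζ ∈ Om) (ha : a ∈ Om) (hb : b ∈ Om)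
    (hk : kob Om a b ≤ 1) {Y : ℝ}
    (hY : ∀ z : ℂ × ℂ, ext ζ z ≤ 2 * (AA ζ a).re → |z.1.im - ζ.1.im| ≤ Y) :
    |b.1.re - a.1.re| ≤ 7 * Y := by
  have hc : ‖(((1 / 7 : ℝ) : ℂ) * Complex.I)‖ ≤ 1 / 7 := by
    rw [norm_mul, Complex.norm_I, Complex.norm_real, Real.norm_eq_abs, mul_one]
    rw [abs_of_pos (by norm_num)]
  have hc' : ‖-(((1 / 7 : ℝ) : ℂ) * Complex.I)‖ ≤ 1 / 7 := by rw [norm_neg]; exact hc
  have h1 := hY _ (seg_ext hK hζ ha hb hk hc)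
  have h2 := hY _ (seg_ext hK hζ ha hb hk hc')
  have e1 : (a + (((1 / 7 : ℝ) : ℂ) * Complex.I) • (b - a)).1.im
      = a.1.im + (1 / 7) * (b.1.re - a.1.re) := by
    simp [Complex.mul_im, Complex.mul_re]
  have e2 : (a + (-(((1 / 7 : ℝ) : ℂ) * Complex.I)) • (b - a)).1.im
      = a.1.im - (1 / 7) * (b.1.re - a.1.re) := by
    simp [Complex.mul_im, Complex.mul_re]
    ring
  rw [e1] at h1
  rw [e2] at h2
  rw [abs_le] at h1 h2 ⊢
  constructor <;> linarith [h1.1, h1.2, h2.1, h2.2]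

end Pool.TH332.DW
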