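import Pool.Agent.TH332.DW.Low

namespace Pool.TH332.DW

open Metric Set Filter Topology

theorem aux_up_upper {a b y y' W W' : ℝ} (hW : 0 ≤ W) (ha : a = max (|y| - W / 16) 0)
    (hb : b = max (|y'| - W' / 16) 0) :
    b ^ 2 - a ^ 2 - 2 * a * Real.sign y * (y' - y) + (a / 8) * (W' - W) ≤
      (y' - y) ^ 2 + ((|y'| - |y|) - (W' - W) / 16) ^ 2 := by
  have hs : Real.sign y * y = |y| := by
    rcases lt_trichotomy y 0 with h | h | h
    · rw [Real.sign_of_neg h, abs_of_neg h]; ring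
    · simp [h]
    · rw [Real.sign_of_pos h, abs_of_pos h]; ring
  have ha0 : 0 ≤ a := by rw [ha]; exact le_max_right _ _
  have hay : a ≤ |y| := by
    rw [ha]; apply max_le _ (abs_nonneg _); linarith
  -- step 1
  have k1 : b ^ 2 ≤ a ^ 2 + 2 * a * ((|y'| - |y|) - (W' - W) / 16) +
      ((|y'| - |y|) - (W' - W) / 16) ^ 2 := by
    rcases le_total (|y| - W / 16) 0 with h | h
    · have ha' : a = 0 := by rw [ha, max_eq_right h]
      rw [ha']
      rcases le_total (|y'| - W' / 16) 0 with h' | h'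
      · have hb' : b = 0 := by rw [hb, max_eq_right h']
        rw [hb']
        have := sq_nonneg ((|y'| - |y|) - (W' - W) / 16)
        nlinarith
      · have hb' : b = |y'| - W' / 16 := by rw [hb, max_eq_left h']
        have h3 : b ≤ (|y'| - |y|) - (W' - W) / 16 := by rw [hb']; linarith
        have h4 : 0 ≤ b := by rw [hb']; exact h'
        have := mul_self_le_mul_self h4 h3
        nlinarith
    · have ha' : a = |y| - W / 16 := by rw [ha, max_eq_left h]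
      have h5 : b ^ 2 ≤ (|y'| - W' / 16) ^ 2 := by
        rw [hb]
        rcases le_total (|y'| - W' / 16) 0 with h' | h'
        · rw [max_eq_right h']; nlinarith [sq_nonneg (|y'| - W' / 16)]
        · rw [max_eq_left h']
      have h6 : (|y'| - W' / 16) = a + ((|y'| - |y|) - (W' - W) / 16) := by rw [ha']; ring
      rw [h6] at h5
      nlinarith [h5]
  -- step 2
  have k2 : 2 * a * (|y'| - Real.sign y * y') ≤ (y' - y) ^ 2 := by
    rcases lt_trichotomy y 0 with h | h | h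
    · rw [Real.sign_of_neg h]
      rw [abs_of_neg h] at hay
      rcases le_total y' 0 with h' | h'
      · rw [abs_of_nonpos h']; nlinarith [sq_nonneg (y' - y)]
      · rw [abs_of_nonneg h']; nlinarith [sq_nonneg (y' + y), mul_le_mul_of_nonneg_right hay h']
    · rw [h] at hay ⊢
      simp only [abs_zero] at hay
      have : a = 0 := le_antisymm hay ha0
      rw [this]; nlinarith [sq_nonneg (y' - 0)]
    · rw [Real.sign_of_pos h]
      rw [abs_of_pos h] at hay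
      rcases le_total y' 0 with h' | h'
      · rw [abs_of_nonpos h']
        nlinarith [sq_nonneg (y' + y), mul_le_mul_of_nonneg_right hay (neg_nonneg.2 h')]
      · rw [abs_of_nonneg h']; nlinarith [sq_nonneg (y' - y)]
  have e : 2 * a * ((|y'| - |y|) - (W' - W) / 16) - 2 * a * Real.sign y * (y' - y)
      + (a / 8) * (W' - W) = 2 * a * (|y'| - Real.sign y * y')
        + 2 * a * (Real.sign y * y - |y|) := by ring
  rw [hs] at e
  nlinarith [k1, k2, e]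

theorem eni_le_one (x : ℝ) : expNegInvGlue x ≤ 1 := by
  unfold expNegInvGlue
  split_ifs with h
  · exact zero_le_one
  · rw [Real.exp_le_one_iff]
    have : 0 < x⁻¹ := inv_pos.2 (not_le.1 h)
    linarith

theorem rho_upper (hgg : ∀ q q' : ℝ, 0 ≤ q → 0 ≤ q' →
      gg q' ≤ gg q + expNegInvGlue q * (q' - q) + (q' - q) ^ 2) (ζ z : ℂ × ℂ)
      (hζ : ‖ζ‖ ≤ 10) (hz : ‖z‖ ≤ 10) :
    rho z ≤ rho ζ + (lin ζ (z - ζ)).re + 7000 * ‖z - ζ‖ ^ 2 := by
  have h1 := aux_up_upper (a := up ζ) (b := up z) (y := ζ.1.im) (y' := z.1.im) (W := ‖ζ.2‖ ^ 2)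
    (W' := ‖z.2‖ ^ 2) (by positivity) rfl rfl
  have h2 := aux_up_upper (a := xp ζ) (b := xp z) (y := ζ.1.re) (y' := z.1.re) (W := 16)
    (W' := 16) (by norm_num) (by unfold xp; norm_num) (by unfold xp; norm_num)
  have h3 := hgg (qq ζ) (qq z) (qq_nonneg _) (qq_nonneg _)
  have h4 := normSq_expand ζ.2 z.2
  have h5 := lin_re ζ (z - ζ)
  have h7 := up_nonneg ζ
  have hg1 : expNegInvGlue (qq ζ) ≤ 1 := eni_le_one _
  have hg0 : 0 ≤ expNegInvGlue (qq ζ) := expNegInvGlue.nonneg _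
  set γ := expNegInvGlue (qq ζ) with hγ
  set H := ‖z - ζ‖ with hH
  have hH0 : 0 ≤ H := norm_nonneg _
  have hH20 : H ≤ 20 := (norm_sub_le z ζ).trans (by linarith)
  have n1 : ‖z.1 - ζ.1‖ ≤ H := norm_fst_le (z - ζ)
  have n2 : ‖z.2 - ζ.2‖ ≤ H := norm_snd_le (z - ζ)
  have m1 : ‖ζ.1‖ ≤ 10 := (norm_fst_le ζ).trans hζ
  have m2 : ‖ζ.2‖ ≤ 10 := (norm_snd_le ζ).trans hζ
  have a1 : |z.1.im - ζ.1.im| ≤ H := by
    have := Complex.abs_im_le_norm (z.1 - ζ.1); rw [Complex.sub_im] at this; exact this.trans n1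
  have a2 : |z.1.re - ζ.1.re| ≤ H := by
    have := Complex.abs_re_le_norm (z.1 - ζ.1); rw [Complex.sub_re] at this; exact this.trans n1
  have a3 : |ζ.1.im| ≤ 10 := (Complex.abs_im_le_norm ζ.1).trans m1
  set D := ‖z.2 - ζ.2‖ ^ 2 with hD
  have hD0 : 0 ≤ D := by positivity
  have hDH : D ≤ H ^ 2 := pow_le_pow_left₀ (norm_nonneg _) n2 2
  have e1 : (z - ζ).1 = z.1 - ζ.1 := rfl
  have e2 : (z - ζ).2 = z.2 - ζ.2 := rfl
  rw [e1, e2] at h5
  simp only [Complex.sub_re, Complex.sub_im] at h5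
  rw [h5]
  unfold rho
  have e3 : gg (ζ.1.im ^ 2 + ‖ζ.2‖ ^ 2) = gg (qq ζ) := rfl
  have e4 : gg (z.1.im ^ 2 + ‖z.2‖ ^ 2) = gg (qq z) := rfl
  rw [e3, e4]
  set P := ((starRingEnd ℂ) ζ.2 * (z.2 - ζ.2)).re with hP
  have hPa : |P| ≤ 10 * H := by
    have := Complex.abs_re_le_norm ((starRingEnd ℂ) ζ.2 * (z.2 - ζ.2))
    rw [norm_mul, Complex.norm_conj] at this
    calc |P| ≤ ‖ζ.2‖ * ‖z.2 - ζ.2‖ := this
      _ ≤ 10 * H := mul_le_mul m2 n2 (norm_nonneg _) (by norm_num)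
  have h8 : qq z - qq ζ = 2 * ζ.1.im * (z.1.im - ζ.1.im) + (z.1.im - ζ.1.im) ^ 2 + 2 * P + D := by
    unfold qq; rw [h4]; ring
  have sq1 : (z.1.im - ζ.1.im) ^ 2 ≤ H ^ 2 := sq_le_sq' (by linarith [(abs_le.1 a1).1])
    (abs_le.1 a1).2
  have sq2 : (z.1.re - ζ.1.re) ^ 2 ≤ H ^ 2 := sq_le_sq' (by linarith [(abs_le.1 a2).1])
    (abs_le.1 a2).2
  have h9 : |qq z - qq ζ| ≤ 80 * H := by
    rw [h8]
    have t1 : |2 * ζ.1.im * (z.1.im - ζ.1.im)| ≤ 20 * H := by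
      rw [abs_mul, abs_mul, abs_two]
      have : |ζ.1.im| * |z.1.im - ζ.1.im| ≤ 10 * H :=
        mul_le_mul a3 a1 (abs_nonneg _) (by norm_num)
      linarith
    have t2 : H ^ 2 ≤ 20 * H := by rw [sq]; exact mul_le_mul_of_nonneg_right hH20 hH0
    have t3 := sq_nonneg (z.1.im - ζ.1.im)
    have t4 := abs_le.1 t1
    have t5 := abs_le.1 hPa
    rw [abs_le]
    constructor
    · linarith [t4.1, t5.1]
    · linarith [t4.2, t5.2]
  have h10 : (qq z - qq ζ) ^ 2 ≤ 6400 * H ^ 2 := by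
    have := sq_le_sq' (by linarith [(abs_le.1 h9).1]) (abs_le.1 h9).2
    calc _ ≤ (80 * H) ^ 2 := this
      _ = 6400 * H ^ 2 := by ring
  have h11 : ‖z.2‖ ^ 2 - ‖ζ.2‖ ^ 2 = 2 * P + D := by rw [h4]; ring
  have h12 : (|z.1.im| - |ζ.1.im| - (‖z.2‖ ^ 2 - ‖ζ.2‖ ^ 2) / 16) ^ 2 ≤ 16 * H ^ 2 := by
    rw [h11]
    have t1 : |(|z.1.im| - |ζ.1.im|)| ≤ H := (abs_abs_sub_abs_le_abs_sub _ _).trans a1
    have t2 : H ^ 2 ≤ 20 * H := by rw [sq]; exact mul_le_mul_of_nonneg_right hH20 hH0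
    have t3 : |(|z.1.im| - |ζ.1.im| - (2 * P + D) / 16)| ≤ 4 * H := by
      have t4 := abs_le.1 t1
      have t5 := abs_le.1 hPa
      rw [abs_le]
      constructor
      · linarith [t4.1, t5.2]
      · linarith [t4.2, t5.1]
    have := sq_le_sq' (by linarith [(abs_le.1 t3).1]) (abs_le.1 t3).2
    calc _ ≤ (4 * H) ^ 2 := this
      _ = 16 * H ^ 2 := by ring
  have h13 : (|z.1.re| - |ζ.1.re| - ((16 : ℝ) - 16) / 16) ^ 2 ≤ H ^ 2 := by
    have t1 : |(|z.1.re| - |ζ.1.re|)| ≤ H := (abs_abs_sub_abs_le_abs_sub _ _).trans a2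
    have t3 : |(|z.1.re| - |ζ.1.re| - ((16 : ℝ) - 16) / 16)| ≤ H := by
      simpa using t1
    exact sq_le_sq' (by linarith [(abs_le.1 t3).1]) (abs_le.1 t3).2
  have h14 : γ * ((z.1.im - ζ.1.im) ^ 2 + D) ≤ 1 * (H ^ 2 + H ^ 2) :=
    mul_le_mul hg1 (by linarith) (by positivity) (by norm_num)
  have h15 : 0 ≤ up ζ / 8 * D := by positivity
  have h16 : γ * (qq z - qq ζ) = 2 * γ * ζ.1.im * (z.1.im - ζ.1.im)
      + γ * ((z.1.im - ζ.1.im) ^ 2 + D) + 2 * γ * P := by rw [h8]; ring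
  have h17 : up ζ / 8 * (‖z.2‖ ^ 2 - ‖ζ.2‖ ^ 2) = up ζ / 4 * P + up ζ / 8 * D := by
    rw [h11]; ring
  have h18 : (2 - up ζ / 4 + 2 * γ) * P = 2 * P - up ζ / 4 * P + 2 * γ * P := by ring
  have h19 : (2 * up ζ * Real.sign ζ.1.im + 2 * γ * ζ.1.im) * (z.1.im - ζ.1.im)
      = 2 * up ζ * Real.sign ζ.1.im * (z.1.im - ζ.1.im)
        + 2 * γ * ζ.1.im * (z.1.im - ζ.1.im) := by ring
  have h20 : 0 ≤ H ^ 2 := by positivity
  rw [h18, h19]
  linarith [h1, h2, h3, h10, h12, h13, h14, h15, sq1, sq2, hDH, h11, h16, h17, h20]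

end Pool.TH332.DW
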